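import Pool.Agent.Work.MP_7b0bad_ag.AL.Stmts

set_option autoImplicit false

/-! # ALb: the permutation of the cycles of `x` has odd order -/

namespace MP7b0bad.AL

open Equiv

/-- a subgroup normalised by another one -/
theorem ALb_ext {G : Type} [Group G] [Finite G] (M K : Subgroup G)
    (h : ∀ k ∈ K, ∀ m ∈ M, k * m * k⁻¹ ∈ M) :
    Nat.card (M ⊔ K : Subgroup G) ∣ Nat.card M * Nat.card K ∧
    (Group.IsSolvable M → Group.IsSolvable K → Group.IsSolvable (M ⊔ K : Subgroup G)) := by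
  have hK : K ≤ Subgroup.normalizer (M : Set G) := fun k hk =>
    Subgroup.mem_normalizer_fintype (S := (M : Set G)) fun n hn => h k hk n hn
  set S : Subgroup G := M ⊔ K with hS
  have hMS : M ≤ S := le_sup_left
  have hKS : K ≤ S := le_sup_right
  have hle : S ≤ Subgroup.normalizer (M : Set G) := sup_le Subgroup.le_normalizer hK
  have hN : (M.subgroupOf S).Normal := by
    refine ⟨fun x hx g => ?_⟩
    rw [Subgroup.mem_subgroupOf] at hx ⊢
    have h1 := (Subgroup.mem_normalizer_iff.1 (hle g.2) (x : G)).1 hx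
    simpa using h1
  have htop : M.subgroupOf S ⊔ K.subgroupOf S = ⊤ := by
    rw [← Subgroup.subgroupOf_sup hMS hKS, ← hS, Subgroup.subgroupOf_self]
  have hcM : Nat.card (M.subgroupOf S) = Nat.card M :=
    Nat.card_congr (Subgroup.subgroupOfEquivOfLe hMS).toEquiv
  have hcK : Nat.card (K.subgroupOf S) = Nat.card K :=
    Nat.card_congr (Subgroup.subgroupOfEquivOfLe hKS).toEquiv
  have hsur : Function.Surjective
      ((QuotientGroup.mk' (M.subgroupOf S)).comp (K.subgroupOf S).subtype) := by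
    intro y
    obtain ⟨g, rfl⟩ := QuotientGroup.mk'_surjective _ y
    have hg : g ∈ ((M.subgroupOf S ⊔ K.subgroupOf S : Subgroup S) : Set S) := by
      rw [htop]; trivial
    rw [Subgroup.normal_mul] at hg
    obtain ⟨m, hm, k, hk, rfl⟩ := Set.mem_mul.1 hg
    refine ⟨⟨k, hk⟩, ?_⟩
    show QuotientGroup.mk' (M.subgroupOf S) k = QuotientGroup.mk' (M.subgroupOf S) (m * k)
    rw [map_mul]
    have h2 : QuotientGroup.mk' (M.subgroupOf S) m = 1 := by
      rw [QuotientGroup.mk'_apply, QuotientGroup.eq_one_iff]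
      exact hm
    rw [h2, one_mul]
  refine ⟨?_, fun h1 h2 => ?_⟩
  · rw [← hcM, ← hcK, ← Subgroup.card_mul_index (M.subgroupOf S)]
    refine Nat.mul_dvd_mul_left _ ?_
    exact Subgroup.card_dvd_of_surjective _ hsur
  · have : Group.IsSolvable (M.subgroupOf S) := by
      have := h1
      exact Group.isSolvable_of_isSolvable_injective
        (f := (Subgroup.subgroupOfEquivOfLe hMS).toMonoidHom)
        (Subgroup.subgroupOfEquivOfLe hMS).injective
    have : Group.IsSolvable (K.subgroupOf S) := by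
      have := h2
      exact Group.isSolvable_of_isSolvable_injective
        (f := (Subgroup.subgroupOfEquivOfLe hKS).toMonoidHom)
        (Subgroup.subgroupOfEquivOfLe hKS).injective
    have : Group.IsSolvable (S ⧸ M.subgroupOf S) := Group.isSolvable_of_surjective hsur
    refine Group.isSolvable_of_ker_le_range (M.subgroupOf S).subtype
      (QuotientGroup.mk' (M.subgroupOf S)) ?_
    rw [Subgroup.range_subtype, QuotientGroup.ker_mk']

/-- fibrewise permutations -/
def ALbPhi (p s t : ℕ) : (ZMod p → Perm (Fin s)) →* Perm (Om p s t) where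
  toFun f := Perm.sumCongr (Equiv.prodCongrRight f) 1
  map_one' := by
    ext x
    rcases x with ⟨y, i⟩ | j <;> rfl
  map_mul' f g := by
    ext x
    rcases x with ⟨y, i⟩ | j <;> rfl

theorem ALbPhi_inl (p s t : ℕ) (f : ZMod p → Perm (Fin s)) (y : ZMod p) (i : Fin s) :
    ALbPhi p s t f (Sum.inl (y, i)) = Sum.inl (y, f y i) := rfl

theorem ALbPhi_inr (p s t : ℕ) (f : ZMod p → Perm (Fin s)) (j : Fin t) :
    ALbPhi p s t f (Sum.inr j) = Sum.inr j := rfl

theorem ALb_xe_inl (p s t : ℕ) (y : ZMod p) (i : Fin s) :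
    xe p s t (Sum.inl (y, i)) = Sum.inl (y + 1, i) := by
  show (Sum.inl (((1 : (ZMod p)ˣ) : ZMod p) * y + 1, i) : Om p s t) = _
  rw [Units.val_one, one_mul]

theorem ALb_xe_inr (p s t : ℕ) (j : Fin t) :
    xe p s t (Sum.inr j) = Sum.inr j := rfl

theorem ALb_c (p s t : ℕ) (π : Perm (Fin s)) :
    mp p 1 0 π 1 = ALbPhi p s t (fun _ => π) := by
  ext x
  rcases x with ⟨y, i⟩ | j
  · show (Sum.inl (((1 : (ZMod p)ˣ) : ZMod p) * y + 0, π i) : Om p s t) = Sum.inl (y, π i)
    rw [Units.val_one, one_mul, add_zero]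
  · rfl

/-- conjugation by `x` is the shift -/
theorem ALb_conj (p s t : ℕ) (f : ZMod p → Perm (Fin s)) :
    xe p s t * ALbPhi p s t f * (xe p s t)⁻¹ = ALbPhi p s t (fun y => f (y - 1)) := by
  rw [mul_inv_eq_iff_eq_mul]
  ext x
  rcases x with ⟨y, i⟩ | j
  · rw [Perm.mul_apply, Perm.mul_apply, ALbPhi_inl, ALb_xe_inl, ALb_xe_inl, ALbPhi_inl,
      add_sub_cancel_right]
  · rfl

theorem ALb_pow (p s t : ℕ) (n : ℕ) (y : ZMod p) (i : Fin s) :
    (xe p s t ^ n) (Sum.inl (y, i)) = Sum.inl (y + n, i) := by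
  induction n with
  | zero => simp
  | succ n ih =>
    rw [pow_succ', Perm.mul_apply, ih, ALb_xe_inl, Nat.cast_succ, add_assoc]

theorem ALb_pow_inr (p s t : ℕ) (n : ℕ) (j : Fin t) :
    (xe p s t ^ n) (Sum.inr j) = Sum.inr j := by
  induction n with
  | zero => simp
  | succ n ih => rw [pow_succ', Perm.mul_apply, ih, ALb_xe_inr]

theorem ALb_xp (p s t : ℕ) : xe p s t ^ p = 1 := by
  ext x
  rcases x with ⟨y, i⟩ | j
  · rw [ALb_pow, ZMod.natCast_self, add_zero]
    rfl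
  · rw [ALb_pow_inr]
    rfl

/-- functions with values in a subgroup -/
def ALbT (p s t : ℕ) (N : Subgroup (Perm (Fin s))) : Subgroup (Perm (Om p s t)) :=
  ((ALbPhi p s t).comp (N.subtype.compLeft (ZMod p))).range

theorem ALbT_mem (p s t : ℕ) (N : Subgroup (Perm (Fin s))) (g : Perm (Om p s t)) :
    g ∈ ALbT p s t N ↔ ∃ f : ZMod p → Perm (Fin s), (∀ y, f y ∈ N) ∧ ALbPhi p s t f = g := by
  constructor
  · rintro ⟨f, rfl⟩
    exact ⟨fun y => (f y : Perm (Fin s)), fun y => (f y).2, rfl⟩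
  · rintro ⟨f, hf, rfl⟩
    exact ⟨fun y => ⟨f y, hf y⟩, rfl⟩

theorem ALbT_card (p s t : ℕ) [Fact p.Prime] (N : Subgroup (Perm (Fin s))) (h : ¬ p ∣ Nat.card N) :
    ¬ p ∣ Nat.card (ALbT p s t N) := by
  intro h1
  have h2 : Nat.card (ALbT p s t N) ∣ Nat.card (ZMod p → N) := Subgroup.card_range_dvd _
  rw [Nat.card_fun] at h2
  exact h ((Fact.out : p.Prime).dvd_of_dvd_pow (h1.trans h2))

theorem ALbT_solv (p s t : ℕ) (g : Perm (Fin s)) :
    Group.IsSolvable (ALbT p s t (Subgroup.zpowers g)) := by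
  refine Group.isSolvable_of_comm fun a b => Subtype.ext ?_
  obtain ⟨f₁, h₁, e₁⟩ := (ALbT_mem p s t _ _).1 a.2
  obtain ⟨f₂, h₂, e₂⟩ := (ALbT_mem p s t _ _).1 b.2
  show (a : Perm (Om p s t)) * b = b * a
  rw [← e₁, ← e₂, ← map_mul, ← map_mul]
  congr 1
  funext y
  obtain ⟨m, hm⟩ := Subgroup.mem_zpowers_iff.1 (h₁ y)
  obtain ⟨n, hn⟩ := Subgroup.mem_zpowers_iff.1 (h₂ y)
  show f₁ y * f₂ y = f₂ y * f₁ y
  rw [← hm, ← hn, ← zpow_add, ← zpow_add, add_comm]

theorem ALbT_shift (p s t : ℕ) (N : Subgroup (Perm (Fin s))) (g : Perm (Om p s t))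
    (hg : g ∈ ALbT p s t N) : xe p s t * g * (xe p s t)⁻¹ ∈ ALbT p s t N := by
  obtain ⟨f, hf, rfl⟩ := (ALbT_mem p s t _ _).1 hg
  rw [ALb_conj]
  exact (ALbT_mem p s t _ _).2 ⟨_, fun y => hf _, rfl⟩

/-- the inverting element -/
theorem ALb_beta (p s : ℕ) [Fact p.Prime] (hp : p ≠ 2) (π : Perm (Fin s)) :
    ∃ β : Perm (Fin s), β * π * β⁻¹ = π⁻¹ ∧ ¬ p ∣ orderOf β := by
  have h1 : IsConj π π⁻¹ := by
    rw [Equiv.Perm.isConj_iff_cycleType_eq, Equiv.Perm.cycleType_inv]
  obtain ⟨β, hβ⟩ := isConj_iff.1 h1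
  have hodd : ∀ j : ℕ, β ^ (2 * j + 1) * π * (β ^ (2 * j + 1))⁻¹ = π⁻¹ := by
    intro j
    induction j with
    | zero => simpa using hβ
    | succ j ih =>
      have h2 : β ^ (2 * (j + 1) + 1) = β * (β * β ^ (2 * j + 1)) := by
        rw [← pow_succ', ← pow_succ']
        congr 1
      have h3 : β * π⁻¹ * β⁻¹ = π := by
        rw [← conj_inv, hβ, inv_inv]
      calc β ^ (2 * (j + 1) + 1) * π * (β ^ (2 * (j + 1) + 1))⁻¹
          = β * (β * (β ^ (2 * j + 1) * π * (β ^ (2 * j + 1))⁻¹) * β⁻¹) * β⁻¹ := by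
            rw [h2]; group
        _ = π⁻¹ := by rw [ih, h3, hβ]
  obtain ⟨k, m, hm, hkm⟩ := Nat.exists_eq_two_pow_mul_odd (orderOf_pos β).ne'
  obtain ⟨j, hj⟩ := hm
  refine ⟨β ^ m, by rw [hj]; exact hodd j, fun hd => ?_⟩
  have h5 : orderOf (β ^ m) ∣ 2 ^ k := by
    apply orderOf_dvd_of_pow_eq_one
    rw [← pow_mul, mul_comm, ← hkm]
    exact pow_orderOf_eq_one β
  have h6 : p ∣ 2 := (Fact.out : p.Prime).dvd_of_dvd_pow (hd.trans h5)
  exact hp ((Nat.prime_dvd_prime_iff_eq Fact.out Nat.prime_two).1 h6)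

theorem prf_ALb (hSolv : MT.MSolv) : ALb := by
  intro k _ _ p _ _ s t π hp hs hπ hπp
  obtain ⟨β, hβ, hβp⟩ := ALb_beta p s hp π
  have hp3 : 3 ≤ p := by
    have h2 := (Fact.out : p.Prime).two_le
    omega
  set x : Perm (Om p s t) := xe p s t with hx
  set Q : Subgroup (Perm (Om p s t)) := Subgroup.zpowers x with hQ
  set M : Subgroup (Perm (Om p s t)) := ALbT p s t (Subgroup.zpowers π) with hM
  set K : Subgroup (Perm (Om p s t)) := ALbT p s t (Subgroup.zpowers β) with hK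
  -- `β` normalises `⟨π⟩`
  have hnorm : ∀ b ∈ Subgroup.zpowers β, ∀ a ∈ Subgroup.zpowers π,
      b * a * b⁻¹ ∈ Subgroup.zpowers π := by
    have h1 : β ∈ Subgroup.normalizer ((Subgroup.zpowers π : Subgroup (Perm (Fin s))) : Set (Perm (Fin s))) := by
      refine Subgroup.mem_normalizer_fintype fun a ha => ?_
      obtain ⟨m, rfl⟩ := Subgroup.mem_zpowers_iff.1 ha
      have h2 : β * π ^ m * β⁻¹ = (β * π * β⁻¹) ^ m := (conj_zpow).symm
      rw [h2, hβ]
      exact Subgroup.zpow_mem _ (Subgroup.inv_mem _ (Subgroup.mem_zpowers π)) m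
    intro b hb a ha
    exact (Subgroup.mem_normalizer_iff.1 ((Subgroup.zpowers_le.2 h1) hb) a).1 ha
  have hKM : ∀ b ∈ K, ∀ a ∈ M, b * a * b⁻¹ ∈ M := by
    intro b hb a ha
    obtain ⟨f, hf, rfl⟩ := (ALbT_mem p s t _ _).1 hb
    obtain ⟨g, hg, rfl⟩ := (ALbT_mem p s t _ _).1 ha
    rw [← map_inv, ← map_mul, ← map_mul]
    exact (ALbT_mem p s t _ _).2 ⟨_, fun y => hnorm _ (hf y) _ (hg y), rfl⟩
  obtain ⟨hc1, hs1⟩ := ALb_ext M K hKM
  set A : Subgroup (Perm (Om p s t)) := M ⊔ K with hA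
  have hAs : Group.IsSolvable A := hs1 (ALbT_solv p s t π) (ALbT_solv p s t β)
  have hAp : ¬ p ∣ Nat.card A := by
    intro h
    rcases (Fact.out : p.Prime).dvd_mul.1 (h.trans hc1) with h2 | h2
    · exact ALbT_card p s t _ (by rwa [Nat.card_zpowers]) h2
    · exact ALbT_card p s t _ (by rwa [Nat.card_zpowers]) h2
  have hxA : ∀ a ∈ A, x * a * x⁻¹ ∈ A := by
    have h1 : A ≤ A.comap (MulAut.conj x).toMonoidHom := by
      refine sup_le ?_ ?_
      · intro a ha
        exact (le_sup_left : M ≤ A) (ALbT_shift p s t _ a ha)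
      · intro a ha
        exact (le_sup_right : K ≤ A) (ALbT_shift p s t _ a ha)
    intro a ha
    exact h1 ha
  have hQA : ∀ q ∈ Q, ∀ a ∈ A, q * a * q⁻¹ ∈ A := by
    have h1 : x ∈ Subgroup.normalizer (A : Set (Perm (Om p s t))) :=
      Subgroup.mem_normalizer_fintype fun a ha => hxA a ha
    intro q hq a ha
    exact (Subgroup.mem_normalizer_iff.1 ((Subgroup.zpowers_le.2 h1) hq) a).1 ha
  have hxp : x ^ p = 1 := ALb_xp p s t
  have hQp : IsPGroup p Q := by
    intro g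
    refine ⟨1, Subtype.ext ?_⟩
    obtain ⟨m, hm⟩ := Subgroup.mem_zpowers_iff.1 g.2
    show (g : Perm (Om p s t)) ^ p ^ 1 = 1
    rw [← hm, pow_one, ← zpow_natCast, zpow_comm, zpow_natCast, hxp, one_zpow]
  have hQs : Group.IsSolvable Q := by
    have : Group.IsNilpotent Q := hQp.isNilpotent
    infer_instance
  have hAQs : Group.IsSolvable (A ⊔ Q : Subgroup (Perm (Om p s t))) :=
    (ALb_ext A Q hQA).2 hAs hQs
  obtain ⟨-, hncl, -⟩ := all_GCop p (Perm (Om p s t)) A Q hAp hQp hQA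
  set H : Subgroup (Perm (Om p s t)) := nclIn (A ⊔ Q) Q with hH
  have hQH : Q ≤ H := GCop_le_nclIn
  have hxH : x ∈ H := hQH (Subgroup.mem_zpowers x)
  have hHAQ : H ≤ A ⊔ Q := by
    refine (Subgroup.closure_le _).2 ?_
    rintro _ ⟨a, ha, q, hq, rfl⟩
    have hq' : q ∈ A ⊔ Q := (le_sup_right : Q ≤ A ⊔ Q) hq
    exact Subgroup.mul_mem _ (Subgroup.mul_mem _ ha hq') (Subgroup.inv_mem _ ha)
  have hHs : Group.IsSolvable H := by
    have := hAQs
    exact Group.isSolvable_of_isSolvable_injective (f := Subgroup.inclusion hHAQ)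
      (Subgroup.inclusion_injective hHAQ)
  -- alternating
  have hxsign : Perm.sign x = 1 := by
    have h1 : Perm.sign x ^ p = 1 := by rw [← map_pow, hxp, map_one]
    rcases Int.units_eq_one_or (Perm.sign x) with h2 | h2
    · exact h2
    · exfalso
      rw [h2, ((Fact.out : p.Prime).odd_of_ne_two hp).neg_one_pow] at h1
      exact absurd h1 (by decide)
  have hQalt : Q ≤ alternatingGroup (Om p s t) := by
    rw [hQ, Subgroup.zpowers_le]
    exact Equiv.Perm.mem_alternatingGroup.2 hxsign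
  have hHalt : H ≤ alternatingGroup (Om p s t) := by
    refine (Subgroup.closure_le _).2 ?_
    rintro _ ⟨a, ha, q, hq, rfl⟩
    exact (inferInstance : (alternatingGroup (Om p s t)).Normal).conj_mem q (hQalt hq) a
  -- the elements of `H`
  have hD : ∀ a ∈ A, a * (x * a⁻¹ * x⁻¹) ∈ H := by
    intro a ha
    have h1 : a * x * a⁻¹ ∈ H := GCop_mem_nclIn ((le_sup_left : A ≤ A ⊔ Q) ha)
      (Subgroup.mem_zpowers x)
    have h2 : a * (x * a⁻¹ * x⁻¹) = a * x * a⁻¹ * x⁻¹ := by group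
    rw [h2]
    exact Subgroup.mul_mem _ h1 (Subgroup.inv_mem _ hxH)
  have hDf : ∀ f : ZMod p → Perm (Fin s), ALbPhi p s t f ∈ A →
      f * (fun y => (f (y - 1))⁻¹) ∈ H.comap (ALbPhi p s t) := by
    intro f hf
    rw [Subgroup.mem_comap, map_mul]
    have h1 := hD _ hf
    have h2 : x * (ALbPhi p s t f)⁻¹ * x⁻¹ = ALbPhi p s t (fun y => (f (y - 1))⁻¹) := by
      rw [← map_inv, hx, ALb_conj]
      rfl
    rwa [h2] at h1
  have hβA : ∀ y, ALbPhi p s t (Pi.mulSingle y β) ∈ A := by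
    intro y
    refine (le_sup_right : K ≤ A) ((ALbT_mem p s t _ _).2 ⟨_, fun z => ?_, rfl⟩)
    by_cases h : z = y
    · subst h
      rw [Pi.mulSingle_eq_same]
      exact Subgroup.mem_zpowers β
    · rw [Pi.mulSingle_eq_of_ne h]
      exact one_mem _
  have hπA : ∀ y, ALbPhi p s t (Pi.mulSingle y π) ∈ A := by
    intro y
    refine (le_sup_left : M ≤ A) ((ALbT_mem p s t _ _).2 ⟨_, fun z => ?_, rfl⟩)
    by_cases h : z = y
    · subst h
      rw [Pi.mulSingle_eq_same]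
      exact Subgroup.mem_zpowers π
    · rw [Pi.mulSingle_eq_of_ne h]
      exact one_mem _
  have : Fact (1 < p) := ⟨(Fact.out : p.Prime).one_lt⟩
  have h10 : (1 : ZMod p) ≠ 0 := one_ne_zero
  have h20 : (2 : ZMod p) ≠ 0 := by
    intro h
    have h1 : ((2 : ℕ) : ZMod p) = 0 := by exact_mod_cast h
    rw [ZMod.natCast_eq_zero_iff] at h1
    have := Nat.le_of_dvd (by norm_num) h1
    omega
  have h21 : (2 : ZMod p) ≠ 1 := by
    intro h
    apply h10
    linear_combination h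
  have hu := hDf _ (hβA 0)
  have hv := Subgroup.mul_mem _ (hDf _ (hπA 0)) (hDf _ (hπA 1))
  have hw := Subgroup.mul_mem _ (Subgroup.mul_mem _ hu hv)
    (Subgroup.mul_mem _ (Subgroup.inv_mem _ hu) (Subgroup.inv_mem _ hv))
  have hsq : (Pi.mulSingle 0 (π⁻¹ * π⁻¹) : ZMod p → Perm (Fin s)) ∈ H.comap (ALbPhi p s t) := by
    refine (congrArg (fun z => z ∈ H.comap (ALbPhi p s t)) ?_).mp hw
    funext y
    simp only [Pi.mul_apply, Pi.inv_apply]
    by_cases h0 : y = 0
    · subst h0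
      have e1 : (0 : ZMod p) - 1 ≠ 0 := fun h => h10 (by linear_combination -h)
      have e2 : (0 : ZMod p) - 1 ≠ 1 := fun h => h20 (by linear_combination -h)
      rw [Pi.mulSingle_eq_same, Pi.mulSingle_eq_same, Pi.mulSingle_eq_of_ne e1,
        Pi.mulSingle_eq_of_ne e1, Pi.mulSingle_eq_of_ne (Ne.symm h10), Pi.mulSingle_eq_of_ne e2,
        Pi.mulSingle_eq_same]
      simp only [inv_one, mul_one]
      rw [← hβ]
      group
    · rw [Pi.mulSingle_eq_of_ne h0 (M := fun _ : ZMod p => Perm (Fin s)) (π⁻¹ * π⁻¹)]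
      by_cases h1 : y = 1
      · subst h1
        rw [sub_self]
        simp only [Pi.mulSingle_eq_same, Pi.mulSingle_eq_of_ne h10,
          Pi.mulSingle_eq_of_ne (Ne.symm h10)]
        group
      · have e1 : y - 1 ≠ 0 := fun h => h1 (by linear_combination h)
        rw [Pi.mulSingle_eq_of_ne h0 (M := fun _ : ZMod p => Perm (Fin s)) β,
          Pi.mulSingle_eq_of_ne e1 (M := fun _ : ZMod p => Perm (Fin s)) β]
        group
  -- `π` at `0`
  have hπ0 : (Pi.mulSingle 0 π : ZMod p → Perm (Fin s)) ∈ H.comap (ALbPhi p s t) := by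
    obtain ⟨m, hm⟩ := hπ
    have h1 := Subgroup.pow_mem _ hsq m
    rw [← Pi.mulSingle_pow] at h1
    have h2 : (π⁻¹ * π⁻¹) ^ m = π := by
      have h3 : π ^ (2 * m + 1) = 1 := by rw [← hm]; exact pow_orderOf_eq_one π
      rw [← sq, ← pow_mul, inv_pow, inv_eq_iff_mul_eq_one, ← pow_succ]
      exact h3
    rwa [h2] at h1
  have hπn : ∀ n : ℕ, (Pi.mulSingle (n : ZMod p) π : ZMod p → Perm (Fin s)) ∈
      H.comap (ALbPhi p s t) := by
    intro n
    induction n with
    | zero => simpa using hπ0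
    | succ n ih =>
      rw [Subgroup.mem_comap] at ih ⊢
      have h1 : x * ALbPhi p s t (Pi.mulSingle (n : ZMod p) π) * x⁻¹ ∈ H :=
        Subgroup.mul_mem _ (Subgroup.mul_mem _ hxH ih) (Subgroup.inv_mem _ hxH)
      rw [hx, ALb_conj] at h1
      have h2 : (fun y => (Pi.mulSingle (n : ZMod p) π : ZMod p → Perm (Fin s)) (y - 1)) =
          Pi.mulSingle ((n + 1 : ℕ) : ZMod p) π := by
        funext y
        by_cases h : y = ((n + 1 : ℕ) : ZMod p)
        · subst h
          rw [Pi.mulSingle_eq_same]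
          have : (((n + 1 : ℕ) : ZMod p) - 1) = n := by push_cast; ring
          rw [this, Pi.mulSingle_eq_same]
        · rw [Pi.mulSingle_eq_of_ne h, Pi.mulSingle_eq_of_ne]
          intro h'
          apply h
          push_cast
          linear_combination h'
      rwa [h2] at h1
  have hcH : mp p 1 0 π 1 ∈ H := by
    rw [ALb_c]
    have h1 : (fun _ => π : ZMod p → Perm (Fin s)) ∈ H.comap (ALbPhi p s t) := by
      refine Subgroup.pi_mem_of_mulSingle_mem _ fun y => ?_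
      have h2 := hπn y.val
      rwa [ZMod.natCast_zmod_val] at h2
    exact h1
  -- `c` commutes with `x`
  have hcx : mp p 1 0 π 1 * x = x * mp p 1 0 π 1 := by
    have h1 := ALb_conj p s t (fun _ => π)
    rw [ALb_c, hx]
    exact (mul_inv_eq_iff_eq_mul.1 h1).symm
  have hcp : ¬ p ∣ orderOf (mp (t := t) p 1 0 π 1) := by
    intro h
    apply hπp
    refine h.trans (orderOf_dvd_of_pow_eq_one ?_)
    rw [ALb_c, ← map_pow]
    have : (fun _ => π : ZMod p → Perm (Fin s)) ^ orderOf π = 1 := by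
      funext y
      exact pow_orderOf_eq_one π
    rw [this, map_one]
  refine ⟨H, hHalt, hSolv k p (Perm (Om p s t)) Q H (mp p 1 0 π 1) ⟨hQp, hcp, ?_⟩ ?_ hHs hncl⟩
  · intro q hq
    obtain ⟨m, rfl⟩ := Subgroup.mem_zpowers_iff.1 hq
    have h1 : mp p 1 0 π 1 * x ^ m = x ^ m * mp p 1 0 π 1 :=
      (show Commute (mp p 1 0 π 1) x from hcx).zpow_right m
    rw [h1, mul_inv_cancel_right]
    exact Subgroup.zpow_mem _ (Subgroup.mem_zpowers x) m
  · exact sup_le hQH (Subgroup.zpowers_le.2 hcH)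

end MP7b0bad.AL
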