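import Pool.Agent.Work.MP_7b0bad_ag.MW.Stmts
import Pool.Agent.Work.MP_7b0bad_ag.MT.MQp

set_option autoImplicit false

/-!
# Block AL: alternating groups with tame inertia, all `n`, statements

`MT.Rz k P c H`: `P ⟨c⟩ ≤ H` is an inertia group for `H`.  The join is `MT.MRz`, `MT.MFam`.
-/

namespace MP7b0bad.AL

open Equiv

/-- the points: `s` orbits of length `p` and `t` fixed points -/
abbrev Om (p s t : ℕ) : Type := (ZMod p × Fin s) ⊕ Fin t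

/-- `(y, i) ↦ (a y + b, π i)`, `j ↦ τ j` -/
def mp (p : ℕ) {s t : ℕ} (a : (ZMod p)ˣ) (b : ZMod p) (π : Perm (Fin s)) (τ : Perm (Fin t)) :
    Perm (Om p s t) :=
  Perm.sumCongr ((Equiv.prodCongr ((Units.mulLeft a).trans (Equiv.addRight b)) π :
    Perm (ZMod p × Fin s))) τ

/-- `x = mp p 1 1 1 1` is the product of the `s` cycles `(0,i) → (1,i) → ...` -/
abbrev xe (p s t : ℕ) : Perm (Om p s t) := mp p 1 1 1 1

/-- [ALdec] NORMAL FORM.  `c` permutes the `p`-cycles of `x`; for a `p`-cycle `O` let `l` be the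
length of its orbit under `c`; `c^l` acts on `O ≃ ZMod p` by an affine map of order prime to `p`, so
it has a fixed point `o` (`c` acts on the `p` points of `O`, order prime to `p`, normalising `⟨x⟩`);
take `o, c o, ..., c^(l-1) o` as the origins `(0, i)` of the `l` cycles and `(y, i) = x^y (0, i)`. -/
def ALdec : Prop := ∀ (p : ℕ) [Fact p.Prime] (n : ℕ) (x c : Perm (Fin n)), orderOf x = p →
  ¬ p ∣ orderOf c → (∃ a : ℕ, c * x * c⁻¹ = x ^ a) →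
  ∃ (s t : ℕ) (e : Fin n ≃ Om p s t) (a : (ZMod p)ˣ) (π : Perm (Fin s)) (τ : Perm (Fin t)),
    0 < s ∧ e.permCongr x = xe p s t ∧ e.permCongr c = mp p a 0 π τ ∧
    orderOf a ∣ orderOf c ∧ orderOf π ∣ orderOf c ∧ orderOf τ ∣ orderOf c

/-- [ALx] (hRel0 = the facts of `SV/Fin.lean`: `SVF.occ_main` with `all_T0` etc.) a central
`p`-element `x'` can be added: `N = ⟨x'⟩`, `(A ⟨x'⟩) / N ≃ A` -/
def ALx : Prop := ∀ (k : Type) [Field k] [IsAlgClosed k] (p : ℕ) [Fact p.Prime] [CharP k p]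
  (G : Type) [Group G] [Finite G] (A : Subgroup G) (x₁ x' c : G), x₁ ∈ A → c ∈ A →
  (∀ g ∈ A, g * x' = x' * g) → (∃ m : ℕ, x₁ ^ p ^ m = 1) → (∃ m : ℕ, x' ^ p ^ m = 1) →
  A ⊓ Subgroup.zpowers x' = ⊥ → c * x₁ = x₁ * c → ¬ p ∣ orderOf c →
  nclIn (A ⊔ Subgroup.zpowers (x₁ * x')) (Subgroup.zpowers (x₁ * x')) =
    A ⊔ Subgroup.zpowers (x₁ * x') →
  MT.Rz k (Subgroup.zpowers x₁) c A →
  MT.Rz k (Subgroup.zpowers (x₁ * x')) c (A ⊔ Subgroup.zpowers (x₁ * x'))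

/-- [ALp0] (hAp : MW.ApMain) `n = p`: conjugation, powers of `c` (`prf_ANax`, fields `conj`, `pow`,
`same`) -/
def ALp0 : Prop := ∀ (k : Type) [Field k] [IsAlgClosed k] (p : ℕ) [Fact p.Prime] [CharP k p],
  5 ≤ p → ∀ (x c : Perm (Fin p)), x.IsCycle → x.support.card = p →
  c ∈ alternatingGroup (Fin p) → ¬ p ∣ orderOf c → (∃ a : ℕ, c * x * c⁻¹ = x ^ a) →
  MT.Rz k (Subgroup.zpowers x) c (alternatingGroup (Fin p))

/-- [ALp1] (hp0, hAb : MT.AbMain, hRz : MT.MRz, hSgn : MT.MSgn) `n = p + 1`: join of `A_p` (with `c`)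
and the group of degree `p + 1` from `AbMain` with `e = 1` (tame part removed); the join contains
the 3-cycles of `A_p` and is transitive -/
def ALp1 : Prop := ∀ (k : Type) [Field k] [IsAlgClosed k] (p : ℕ) [Fact p.Prime] [CharP k p],
  5 ≤ p → ∀ (x c : Perm (Fin (p + 1))), x.IsCycle → x.support.card = p →
  c ∈ alternatingGroup (Fin (p + 1)) → ¬ p ∣ orderOf c → (∃ a : ℕ, c * x * c⁻¹ = x ^ a) →
  MT.Rz k (Subgroup.zpowers x) c (alternatingGroup (Fin (p + 1)))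

/-- [ALpc] (hp0, hp1, hANgrp, hANax) `x` a `p`-cycle, every `n` -/
def ALpc : Prop := ∀ (k : Type) [Field k] [IsAlgClosed k] (p : ℕ) [Fact p.Prime] [CharP k p]
  (n : ℕ), p ≠ 2 → 5 ≤ n → ∀ (x c : Perm (Fin n)), x.IsCycle → x.support.card = p →
  c ∈ alternatingGroup (Fin n) → ¬ p ∣ orderOf c → (∃ a : ℕ, c * x * c⁻¹ = x ^ a) →
  MT.Rz k (Subgroup.zpowers x) c (alternatingGroup (Fin n))

/-- [ALa] (hp0) `H` = the diagonal copy of `A_p` (acting on the first coordinate) -/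
def ALa : Prop := ∀ (k : Type) [Field k] [IsAlgClosed k] (p : ℕ) [Fact p.Prime] [CharP k p]
  (s t : ℕ) (a : (ZMod p)ˣ), 5 ≤ p → 0 < s → Odd (orderOf a) →
  ∃ H : Subgroup (Perm (Om p s t)), H ≤ alternatingGroup (Om p s t) ∧
    MT.Rz k (Subgroup.zpowers (xe p s t)) (mp p a 0 1 1) H

/-- [ALb] (hSolv : MT.MSolv) choose an involution (or `1`) `β` of `Fin s` with `β π β⁻¹ = π⁻¹`,
`E = ⟨π, β⟩` (solvable, of order prime to `p`), `E^p` = permutations `(y, i) ↦ (y, e_y i)`,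
`H` = the subgroup of `E^p ⟨x⟩` generated by the conjugates of `x`.  `H` contains
`(e_0, e_1) = (e, e⁻¹)`, so the commutators `([β, π])_0 = (π^{±2})_0`, so all `(π^j)_0` (`π` has odd
order) and `(π)_y (π⁻¹)_0`, hence `(π, ..., π)`. -/
def ALb : Prop := ∀ (k : Type) [Field k] [IsAlgClosed k] (p : ℕ) [Fact p.Prime] [CharP k p]
  (s t : ℕ) (π : Perm (Fin s)), p ≠ 2 → 0 < s → Odd (orderOf π) → ¬ p ∣ orderOf π →
  ∃ H : Subgroup (Perm (Om p s t)), H ≤ alternatingGroup (Om p s t) ∧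
    MT.Rz k (Subgroup.zpowers (xe p s t)) (mp p 1 0 π 1) H

/-- [ALc] (hpc, hx) `H` = the alternating group of `(ZMod p × {0}) ⊕ Fin t` (for `2 ≤ t`), with the
other `p`-cycles of `x` added by `ALx` -/
def ALc : Prop := ∀ (k : Type) [Field k] [IsAlgClosed k] (p : ℕ) [Fact p.Prime] [CharP k p]
  (s t : ℕ) (τ : Perm (Fin t)), p ≠ 2 → 0 < s → τ ∈ alternatingGroup (Fin t) → ¬ p ∣ orderOf τ →
  ∃ H : Subgroup (Perm (Om p s t)), H ≤ alternatingGroup (Om p s t) ∧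
    MT.Rz k (Subgroup.zpowers (xe p s t)) (mp p 1 0 1 τ) H

/-- [ALd] (hAlt3 : MW.WAlt3, hSd : MW.WSd, hRel : MW.WRel; `p = 3`: `all_HThree`, `all_HCrit`)
purely wild -/
def ALd : Prop := ∀ (k : Type) [Field k] [IsAlgClosed k] (p : ℕ) [Fact p.Prime] [CharP k p]
  (n : ℕ) (x : Perm (Fin n)), p ≠ 2 → 5 ≤ n → orderOf x = p →
  MT.Rz k (Subgroup.zpowers x) 1 (alternatingGroup (Fin n))

/-- [ALodd] (hdec, ha, hb, hc, hd, hRz) odd order tame part -/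
def ALodd : Prop := ∀ (k : Type) [Field k] [IsAlgClosed k] (p : ℕ) [Fact p.Prime] [CharP k p]
  (n : ℕ) (x c : Perm (Fin n)), p ≠ 2 → 5 ≤ n → orderOf x = p → Odd (orderOf c) →
  ¬ p ∣ orderOf c → (∃ a : ℕ, c * x * c⁻¹ = x ^ a) →
  MT.Rz k (Subgroup.zpowers x) c (alternatingGroup (Fin n))

/-- [ALfin] (hodd, hpc, hd, hFam : MT.MFam) ALTERNATING GROUPS: every Sylow subgroup of the tame part
normalises a subgroup `⟨x⟩` of order `p` of `P`, with `x` a `p`-cycle for the prime `2` -/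
def ALfin : Prop := ∀ (k : Type) [Field k] [IsAlgClosed k] (p : ℕ) [Fact p.Prime] [CharP k p]
  (n : ℕ), p ≠ 2 → 5 ≤ n → ∀ (P : Subgroup (alternatingGroup (Fin n)))
  (c : alternatingGroup (Fin n)), MT.Nz p P c → P ≠ ⊥ →
  (∀ r : ℕ, r.Prime → r ∣ orderOf c → ∃ x ∈ P, orderOf x = p ∧
    (r = 2 → (x : Perm (Fin n)).IsCycle) ∧
    ∀ g ∈ Subgroup.zpowers c, (∃ m : ℕ, g ^ r ^ m = 1) → ∃ a : ℕ, g * x * g⁻¹ = x ^ a) →
  Rel k (alternatingGroup (Fin n)) (P ⊔ Subgroup.zpowers c)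

/-- [ALred] group theory, `n < 3 p`: `G₁` is generated by one or two disjoint `p`-cycles or has
order `p` -/
def ALred : Prop := ∀ (p : ℕ) [Fact p.Prime] (n : ℕ), p ≠ 2 → n < 3 * p →
  ∀ (G₁ G₀ : Subgroup (alternatingGroup (Fin n))), G₁ ≠ ⊥ → SVF.Hyp p G₁ G₀ →
  Odd (G₁.subgroupOf G₀).index →
  ∃ c x : alternatingGroup (Fin n), MT.Nz p G₁ c ∧ G₀ = G₁ ⊔ Subgroup.zpowers c ∧
    Odd (orderOf c) ∧ x ∈ G₁ ∧ orderOf x = p ∧ ∃ a : ℕ, c * x * c⁻¹ = x ^ a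

end MP7b0bad.AL
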