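import Mathlib
import Pool.Agent.Work.MP_7b0bad_ag.AL.Stmts

set_option autoImplicit false

/-!
# Alternating groups: the tame part acts on the fixed points of the wild part
-/

namespace MP7b0bad.AL

open Equiv

section grp

variable {α β : Type} (ι : α ↪ β)

/-- permutations of `α` as permutations of `β` -/
noncomputable abbrev ALcF : Perm α →* Perm β := Equiv.Perm.viaEmbeddingHom ι

theorem ALcF_apply (f : Perm α) (i : α) : ALcF ι f (ι i) = ι (f i) :=
  Equiv.Perm.viaEmbedding_apply f ι i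

theorem ALcF_notMem (f : Perm α) (i : β) (hi : i ∉ Set.range ι) : ALcF ι f i = i :=
  Equiv.Perm.viaEmbedding_apply_of_notMem f ι i hi

theorem ALcF_inj : Function.Injective (ALcF ι) := Equiv.Perm.viaEmbeddingHom_injective ι

theorem ALcF_sign [Fintype α] [DecidableEq α] [Fintype β] [DecidableEq β] (f : Perm α) :
    Equiv.Perm.sign (ALcF ι f) = Equiv.Perm.sign f := by
  rw [Equiv.Perm.viaEmbeddingHom_apply, Equiv.Perm.viaEmbedding, Equiv.Perm.sign_extendDomain]

/-- a permutation fixing `ι α` commutes with `F f` -/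
theorem ALc_comm (y : Perm β) (hy : ∀ i, y (ι i) = ι i) (f : Perm α) :
    ALcF ι f * y = y * ALcF ι f := by
  ext w
  rw [Equiv.Perm.mul_apply, Equiv.Perm.mul_apply]
  by_cases hw : w ∈ Set.range ι
  · obtain ⟨i, rfl⟩ := hw
    rw [hy, ALcF_apply, hy]
  · have hw' : y w ∉ Set.range ι := by
      rintro ⟨i, hi⟩
      apply hw
      refine ⟨i, ?_⟩
      rw [← hy i] at hi
      exact y.injective hi
    rw [ALcF_notMem ι f w hw, ALcF_notMem ι f _ hw']

theorem ALc_zpow_fix (y : Perm β) (hy : ∀ i, y (ι i) = ι i) (m : ℤ) (i : α) :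
    (y ^ m) (ι i) = ι i := by
  have h : y ∈ MulAction.stabilizer (Perm β) (ι i) := hy i
  exact Subgroup.zpow_mem _ h m

theorem ALc_inf (y : Perm β) (hy : ∀ i, y (ι i) = ι i) (H : Subgroup (Perm α)) :
    H.map (ALcF ι) ⊓ Subgroup.zpowers y = ⊥ := by
  rw [eq_bot_iff]
  rintro g ⟨⟨h, -, rfl⟩, ⟨m, hm⟩⟩
  have hm' : y ^ m = ALcF ι h := hm
  have h1 : h = 1 := by
    ext i
    apply ι.injective
    rw [← ALcF_apply, ← hm', ALc_zpow_fix ι y hy]
    rfl
  rw [h1, map_one]
  exact Subgroup.one_mem _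

/-- the normal closure of `⟨x₁ x'⟩` in `A ⟨x₁ x'⟩` -/
theorem ALc_ncl [Fintype α] [DecidableEq α] (h5 : 5 ≤ Nat.card α) (x : Perm α)
    (hx : x ∈ alternatingGroup α) (hx1 : x ≠ 1) (y : Perm β) (hy : ∀ i, y (ι i) = ι i) :
    nclIn ((alternatingGroup α).map (ALcF ι) ⊔ Subgroup.zpowers (ALcF ι x * y))
      (Subgroup.zpowers (ALcF ι x * y)) =
    (alternatingGroup α).map (ALcF ι) ⊔ Subgroup.zpowers (ALcF ι x * y) := by
  set A : Subgroup (Perm β) := (alternatingGroup α).map (ALcF ι) with hA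
  set z : Perm β := ALcF ι x * y with hz
  have hzz : z ∈ Subgroup.zpowers z := Subgroup.mem_zpowers z
  apply le_antisymm
  · refine (Subgroup.closure_le _).mpr ?_
    rintro g ⟨u, hu, q, hq, rfl⟩
    exact Subgroup.mul_mem _ (Subgroup.mul_mem _ hu
      ((le_sup_right : Subgroup.zpowers z ≤ A ⊔ Subgroup.zpowers z) hq)) (Subgroup.inv_mem _ hu)
  · set N : Subgroup (Perm β) := nclIn (A ⊔ Subgroup.zpowers z) (Subgroup.zpowers z) with hN
    have hgen : ∀ u ∈ A ⊔ Subgroup.zpowers z, ∀ q ∈ Subgroup.zpowers z, u * q * u⁻¹ ∈ N := by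
      intro u hu q hq
      exact Subgroup.subset_closure ⟨u, hu, q, hq, rfl⟩
    have hzN : z ∈ N := by
      have := hgen 1 (Subgroup.one_mem _) z hzz
      rwa [one_mul, inv_one, mul_one] at this
    have hconj : ∀ u ∈ A ⊔ Subgroup.zpowers z, ∀ n ∈ N, u * n * u⁻¹ ∈ N := by
      intro u hu n hn
      have hle : N ≤ N.comap (MulAut.conj u).toMonoidHom := by
        refine (Subgroup.closure_le _).mpr ?_
        rintro g ⟨v, hv, q, hq, rfl⟩
        change u * (v * q * v⁻¹) * u⁻¹ ∈ N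
        have e : u * (v * q * v⁻¹) * u⁻¹ = (u * v) * q * (u * v)⁻¹ := by group
        rw [e]
        exact hgen _ (Subgroup.mul_mem _ hu hv) q hq
      exact hle hn
    have hAN : A ≤ N := by
      have hs : IsSimpleGroup (alternatingGroup α) := alternatingGroup.isSimpleGroup h5
      let K : Subgroup (alternatingGroup α) := (N.comap (ALcF ι)).subgroupOf (alternatingGroup α)
      have hK : ∀ g : alternatingGroup α, g ∈ K ↔ ALcF ι (g : Perm α) ∈ N := fun g => Iff.rfl
      have hKn : K.Normal := by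
        refine ⟨fun n hn g => ?_⟩
        rw [hK] at hn ⊢
        have := hconj (ALcF ι (g : Perm α)) ((le_sup_left : A ≤ A ⊔ Subgroup.zpowers z)
          ⟨g, g.2, rfl⟩) _ hn
        rw [← map_inv, ← map_mul, ← map_mul] at this
        exact this
      rcases hs.eq_bot_or_eq_top_of_normal K hKn with hb | ht
      · exfalso
        have hc := alternatingGroup.center_eq_bot (α := α) (by omega)
        have hxc : (⟨x, hx⟩ : alternatingGroup α) ∈ Subgroup.center (alternatingGroup α) := by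
          rw [Subgroup.mem_center_iff]
          intro g
          have hmem : g * ⟨x, hx⟩ * g⁻¹ * (⟨x, hx⟩ : alternatingGroup α)⁻¹ ∈ K := by
            rw [hK]
            have h1 : ALcF ι (g : Perm α) * z * (ALcF ι (g : Perm α))⁻¹ ∈ N :=
              hgen _ ((le_sup_left : A ≤ A ⊔ Subgroup.zpowers z) ⟨g, g.2, rfl⟩) z hzz
            have h2 := Subgroup.mul_mem _ h1 (Subgroup.inv_mem _ hzN)
            have e : ALcF ι (((g * ⟨x, hx⟩ * g⁻¹ * (⟨x, hx⟩ : alternatingGroup α)⁻¹ :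
                alternatingGroup α)) : Perm α)
                = ALcF ι (g : Perm α) * z * (ALcF ι (g : Perm α))⁻¹ * z⁻¹ := by
              have hy' := ALc_comm ι y hy ((g : Perm α)⁻¹)
              have hcast : (((g * ⟨x, hx⟩ * g⁻¹ * (⟨x, hx⟩ : alternatingGroup α)⁻¹ :
                alternatingGroup α)) : Perm α) = (g : Perm α) * x * (g : Perm α)⁻¹ * x⁻¹ := rfl
              rw [hcast, map_mul, map_mul, map_mul, map_inv, map_inv]
              rw [map_inv] at hy'
              rw [hz]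
              calc _ = ALcF ι (g : Perm α) * ALcF ι x * (ALcF ι (g : Perm α))⁻¹ * y *
                    (y⁻¹ * (ALcF ι x)⁻¹) := by group
                _ = ALcF ι (g : Perm α) * ALcF ι x * ((ALcF ι (g : Perm α))⁻¹ * y) *
                    (y⁻¹ * (ALcF ι x)⁻¹) := by group
                _ = _ := by
                  rw [hy']
                  group
            rw [e]
            exact h2
          rw [hb, Subgroup.mem_bot] at hmem
          rw [mul_inv_eq_one, mul_inv_eq_iff_eq_mul] at hmem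
          exact hmem
        rw [hc, Subgroup.mem_bot] at hxc
        exact hx1 (congrArg Subtype.val hxc)
      · rintro _ ⟨g, hg, rfl⟩
        have : (⟨g, hg⟩ : alternatingGroup α) ∈ K := by
          rw [ht]
          exact Subgroup.mem_top _
        exact this
    refine sup_le hAN ?_
    rw [Subgroup.zpowers_le]
    exact hzN

end grp

theorem ALc_sign {α : Type} [Fintype α] [DecidableEq α] (p : ℕ) [Fact p.Prime] (hp : p ≠ 2)
    (x : Perm α) (hx : x ^ p = 1) : x ∈ alternatingGroup α := by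
  rw [Equiv.Perm.mem_alternatingGroup]
  have ho : Odd p := (Fact.out : p.Prime).odd_of_ne_two hp
  have h1 : Equiv.Perm.sign x ^ p = 1 := by rw [← map_pow, hx, map_one]
  rcases Int.units_eq_one_or (Equiv.Perm.sign x) with h | h
  · exact h
  · rw [h, ho.neg_one_pow] at h1
    exact absurd h1 (by decide)

theorem ALc_xe_pow (p s t m : ℕ) [Fact p.Prime] (y : ZMod p) (i : Fin s) :
    ((xe p s t) ^ m) (Sum.inl (y, i)) = Sum.inl (y + m, i) := by
  induction m with
  | zero => simp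
  | succ m ih =>
    rw [pow_succ', Equiv.Perm.mul_apply, ih]
    change (Sum.inl (((1 : (ZMod p)ˣ) : ZMod p) * (y + m) + 1, i) : Om p s t) = _
    rw [Units.val_one, one_mul]
    push_cast
    rw [add_assoc]

theorem ALc_xe_pow' (p s t m : ℕ) [Fact p.Prime] (j : Fin t) :
    ((xe p s t) ^ m) (Sum.inr j) = Sum.inr j := by
  induction m with
  | zero => simp
  | succ m ih =>
    rw [pow_succ', Equiv.Perm.mul_apply, ih]
    rfl

theorem ALc_xe_p (p s t : ℕ) [Fact p.Prime] : (xe p s t) ^ p = 1 := by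
  ext w
  rcases w with ⟨y, i⟩ | j
  · rw [ALc_xe_pow]
    simp
  · rw [ALc_xe_pow']
    rfl

theorem ALc_pgr (p : ℕ) [Fact p.Prime] {G : Type} [Group G] (x : G) (hx : x ^ p = 1) :
    IsPGroup p (Subgroup.zpowers x) := by
  rintro ⟨g, m, rfl⟩
  refine ⟨1, Subtype.ext ?_⟩
  change (x ^ m) ^ (p ^ 1) = 1
  rw [pow_one, ← zpow_natCast, ← zpow_mul, mul_comm, zpow_mul, zpow_natCast, hx, one_zpow]

/-- the purely wild case -/
theorem ALc_one (k : Type) [Field k] [IsAlgClosed k] (p : ℕ) [Fact p.Prime] [CharP k p]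
    {G : Type} [Group G] [Finite G] (x : G) (hx : x ^ p = 1) :
    MT.Rz k (Subgroup.zpowers x) 1 (Subgroup.zpowers x) := by
  have h0 : Subgroup.zpowers x ⊔ Subgroup.zpowers (1 : G) = Subgroup.zpowers x := by
    rw [Subgroup.zpowers_one_eq_bot, sup_bot_eq]
  refine ⟨h0.le, ?_⟩
  rw [h0, Subgroup.subgroupOf_self]
  exact all_QRP k p (Subgroup.zpowers x) (ALc_pgr p x hx)

/-- the `p`-cycle of `ZMod p ⊕ Fin t` -/
def ALcX (p t : ℕ) : Perm (ZMod p ⊕ Fin t) := Equiv.Perm.sumCongr (Equiv.addRight 1) 1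

/-- the embedding of `ZMod p ⊕ Fin t` -/
def ALcK (p : ℕ) {s : ℕ} (t : ℕ) (i : Fin s) : ZMod p ⊕ Fin t ↪ Om p s t where
  toFun := Sum.map (fun y => (y, i)) id
  inj' := by
    apply Function.Injective.sumMap
    · intro y z h
      exact congrArg Prod.fst h
    · exact Function.injective_id

theorem ALcX_pow (p t m : ℕ) (y : ZMod p) :
    ((ALcX p t) ^ m) (Sum.inl y) = Sum.inl (y + m) := by
  induction m with
  | zero => simp
  | succ m ih =>
    rw [pow_succ', Equiv.Perm.mul_apply, ih]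
    change (Sum.inl (y + m + 1) : ZMod p ⊕ Fin t) = _
    push_cast
    rw [add_assoc]

theorem ALcX_pow' (p t m : ℕ) (j : Fin t) :
    ((ALcX p t) ^ m) (Sum.inr j) = Sum.inr j := by
  induction m with
  | zero => simp
  | succ m ih =>
    rw [pow_succ', Equiv.Perm.mul_apply, ih]
    rfl

theorem ALcX_p (p t : ℕ) : (ALcX p t) ^ p = 1 := by
  ext w
  rcases w with y | j
  · rw [ALcX_pow]
    simp
  · rw [ALcX_pow']
    rfl

theorem ALcX_ne (p t : ℕ) [Fact p.Prime] : ALcX p t ≠ 1 := by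
  intro h
  have h1 : ALcX p t (Sum.inl 0) = Sum.inl 0 := by
    rw [h]
    rfl
  change (Sum.inl ((0 : ZMod p) + 1) : ZMod p ⊕ Fin t) = _ at h1
  rw [zero_add, Sum.inl.injEq] at h1
  exact one_ne_zero h1

/-- `τ` as a permutation of `ZMod p ⊕ Fin t` -/
def ALcT (p t : ℕ) : Perm (Fin t) →* Perm (ZMod p ⊕ Fin t) :=
  (Equiv.Perm.sumCongrHom (ZMod p) (Fin t)).comp (MonoidHom.inr _ _)

theorem ALcT_inl (p t : ℕ) (τ : Perm (Fin t)) (y : ZMod p) :
    ALcT p t τ (Sum.inl y) = Sum.inl y := rfl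

theorem ALcT_inr (p t : ℕ) (τ : Perm (Fin t)) (j : Fin t) :
    ALcT p t τ (Sum.inr j) = Sum.inr (τ j) := rfl

theorem ALcT_sign (p t : ℕ) [Fact p.Prime] (τ : Perm (Fin t)) :
    Equiv.Perm.sign (ALcT p t τ) = Equiv.Perm.sign τ := by
  have h := Equiv.Perm.sign_sumCongr (1 : Perm (ZMod p)) τ
  rw [Equiv.Perm.sign_one, one_mul] at h
  exact h

theorem ALcT_comm (p t : ℕ) (τ : Perm (Fin t)) :
    ALcT p t τ * ALcX p t = ALcX p t * ALcT p t τ := by
  ext w
  rcases w with y | j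
  · rfl
  · rfl

/-- images under homomorphisms -/
theorem ALc_tr {k : Type} [Field k] [IsAlgClosed k] (p : ℕ) [Fact p.Prime] [CharP k p]
    {G G' : Type} [Group G] [Finite G] [Group G'] (f : G →* G') {P : Subgroup G} {c : G}
    {H : Subgroup G} (h : MT.Rz k P c H) : MT.Rz k (P.map f) (f c) (H.map f) := by
  obtain ⟨h1, h2⟩ := h
  have hm : ((P ⊔ Subgroup.zpowers c).subgroupOf H).map (f.subgroupMap H)
      = (P.map f ⊔ Subgroup.zpowers (f c)).subgroupOf (H.map f) := by
    rw [← MonoidHom.map_zpowers, ← Subgroup.map_sup]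
    ext ⟨y, hy⟩
    simp only [Subgroup.mem_map, Subgroup.mem_subgroupOf]
    constructor
    · rintro ⟨x, hx, hxy⟩
      exact ⟨x, hx, by simpa using congrArg Subtype.val hxy⟩
    · rintro ⟨x, hx, hxy⟩
      exact ⟨⟨x, h1 hx⟩, hx, Subtype.ext (by simpa using hxy)⟩
  refine ⟨?_, ?_⟩
  · rw [← MonoidHom.map_zpowers, ← Subgroup.map_sup]
    exact Subgroup.map_mono h1
  · rw [← hm]
    exact MT.MQp_VQuo.1 k p H (H.map f) (f.subgroupMap H) _
      (MonoidHom.subgroupMap_surjective f H) h2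

theorem ALc_pc_apply {α β : Type} (ε : α ≃ β) (f : Perm α) (z : α) :
    ε.permCongrHom f (ε z) = ε (f z) := by
  change ε (f (ε.symm (ε z))) = _
  rw [Equiv.symm_apply_apply]

/-- the `p`-cycle in `Fin n` -/
theorem ALc_cycle (p t n : ℕ) [Fact p.Prime] (ε : ZMod p ⊕ Fin t ≃ Fin n) :
    (ε.permCongrHom (ALcX p t)).IsCycle ∧ (ε.permCongrHom (ALcX p t)).support.card = p := by
  have hc : (ε.permCongrHom (ALcX p t)).IsCycle := by
    refine ⟨ε (Sum.inl 0), ?_, ?_⟩
    · rw [ALc_pc_apply]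
      intro h
      have h1 := ε.injective h
      change (Sum.inl ((0 : ZMod p) + 1) : ZMod p ⊕ Fin t) = _ at h1
      rw [zero_add, Sum.inl.injEq] at h1
      exact one_ne_zero h1
    · intro y hy
      obtain ⟨z, rfl⟩ := ε.surjective y
      rcases z with w | j
      · refine ⟨(w.val : ℤ), ?_⟩
        rw [zpow_natCast, ← map_pow, ALc_pc_apply, ALcX_pow, ZMod.natCast_zmod_val, zero_add]
      · exfalso
        apply hy
        rw [ALc_pc_apply]
        rfl
  refine ⟨hc, ?_⟩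
  rw [← hc.orderOf]
  refine orderOf_eq_prime ?_ ?_
  · rw [← map_pow, ALcX_p, map_one]
  · intro h
    exact ALcX_ne p t (ε.permCongrHom.injective (by rw [h, map_one]))

theorem ALc_pc_sign {α β : Type} [Fintype α] [DecidableEq α] [Fintype β] [DecidableEq β]
    (ε : α ≃ β) (f : Perm α) :
    Equiv.Perm.sign (ε.permCongrHom f) = Equiv.Perm.sign f := Equiv.Perm.sign_permCongr ε f

theorem prf_ALc (hpc : ALpc) (hx : ALx) : ALc := by
  intro k _ _ p _ _ s t τ hp2 hs hτ hpτ
  have hpp : p.Prime := Fact.out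
  have hp3 : 3 ≤ p := by
    have := hpp.two_le
    omega
  have hxeA : xe p s t ∈ alternatingGroup (Om p s t) := ALc_sign p hp2 _ (ALc_xe_p p s t)
  by_cases hτ1 : τ = 1
  · subst hτ1
    refine ⟨Subgroup.zpowers (xe p s t), ?_, ?_⟩
    · rw [Subgroup.zpowers_le]
      exact hxeA
    · have e : (mp p 1 0 1 1 : Perm (Om p s t)) = 1 := by
        ext w
        rcases w with ⟨y, i⟩ | j
        · change (Sum.inl (((1 : (ZMod p)ˣ) : ZMod p) * y + 0, i) : Om p s t) = Sum.inl (y, i)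
          rw [Units.val_one, one_mul, add_zero]
        · rfl
      rw [e]
      exact ALc_one k p _ (ALc_xe_p p s t)
  -- the degree
  have ht3 : 3 ≤ t := by
    by_contra hlt
    have ht : t = 0 ∨ t = 1 ∨ t = 2 := by omega
    apply hτ1
    rw [Equiv.Perm.mem_alternatingGroup] at hτ
    rcases ht with rfl | rfl | rfl
    · exact Subsingleton.elim _ _
    · exact Subsingleton.elim _ _
    · have hd : ∀ σ : Perm (Fin 2), Equiv.Perm.sign σ = 1 → σ = 1 := by decide
      exact hd τ hτ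
  have hcard : Nat.card (ZMod p ⊕ Fin t) = p + t := by
    rw [Nat.card_sum, Nat.card_zmod, Nat.card_fin]
  obtain ⟨n, hn⟩ : ∃ n : ℕ, n = p + t := ⟨_, rfl⟩
  have ε : ZMod p ⊕ Fin t ≃ Fin n := Finite.equivFinOfCardEq (hcard.trans hn.symm)
  have h5 : 5 ≤ n := by omega
  obtain ⟨hcyc, hsup⟩ := ALc_cycle p t n ε
  obtain ⟨x, hxd⟩ : ∃ x : Perm (Fin n), x = ε.permCongrHom (ALcX p t) := ⟨_, rfl⟩
  obtain ⟨c, hcd⟩ : ∃ c : Perm (Fin n), c = ε.permCongrHom (ALcT p t τ) := ⟨_, rfl⟩
  rw [← hxd] at hcyc hsup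
  have hxp : x ^ p = 1 := by rw [hxd, ← map_pow, ALcX_p, map_one]
  have hx1 : x ≠ 1 := hcyc.ne_one
  have hxA : x ∈ alternatingGroup (Fin n) := ALc_sign p hp2 x hxp
  have hcA : c ∈ alternatingGroup (Fin n) := by
    rw [Equiv.Perm.mem_alternatingGroup, hcd, ALc_pc_sign, ALcT_sign]
    exact (Equiv.Perm.mem_alternatingGroup).mp hτ
  have hcp : ¬ p ∣ orderOf c := by
    intro h
    apply hpτ
    refine h.trans ?_
    rw [hcd]
    exact orderOf_map_dvd (ε.permCongrHom.toMonoidHom.comp (ALcT p t)) τ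
  have hcx : c * x = x * c := by
    rw [hcd, hxd, ← map_mul, ← map_mul, ALcT_comm]
  have hR := hpc k p n hp2 h5 x c hcyc hsup hcA hcp ⟨1, by rw [hcx, mul_inv_cancel_right, pow_one]⟩
  -- the embedding
  obtain ⟨ι, hι⟩ : ∃ ι : Fin n ↪ Om p s t, ∀ z, ι (ε z) = ALcK p t (⟨0, hs⟩ : Fin s) z := by
    refine ⟨ε.symm.toEmbedding.trans (ALcK p t ⟨0, hs⟩), ?_⟩
    intro z
    change ALcK p t ⟨0, hs⟩ (ε.symm (ε z)) = _
    rw [Equiv.symm_apply_apply]
  have hR' := ALc_tr p (ALcF ι) hR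
  rw [MonoidHom.map_zpowers] at hR'
  have hFx : ∀ z, ALcF ι x (ι (ε z)) = xe p s t (ι (ε z)) := by
    intro z
    rw [ALcF_apply, hxd, ALc_pc_apply, hι, hι]
    rcases z with w | j
    · change (Sum.inl (w + 1, ⟨0, hs⟩) : Om p s t) =
        Sum.inl (((1 : (ZMod p)ˣ) : ZMod p) * w + 1, ⟨0, hs⟩)
      rw [Units.val_one, one_mul]
    · rfl
  have hFc : ALcF ι c = mp p 1 0 1 τ := by
    ext w
    have hin : ∀ z, ALcF ι c (ι (ε z)) = ι (ε (ALcT p t τ z)) := by
      intro z
      rw [ALcF_apply, hcd, ALc_pc_apply]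
    rcases w with ⟨y, i⟩ | j
    · have e : (mp p 1 0 1 τ : Perm (Om p s t)) (Sum.inl (y, i)) = Sum.inl (y, i) := by
        change (Sum.inl (((1 : (ZMod p)ˣ) : ZMod p) * y + 0, i) : Om p s t) = Sum.inl (y, i)
        rw [Units.val_one, one_mul, add_zero]
      rw [e]
      by_cases hi : i = ⟨0, hs⟩
      · subst hi
        have e1 : (Sum.inl (y, ⟨0, hs⟩) : Om p s t) = ι (ε (Sum.inl y)) := by
          rw [hι]
          rfl
        rw [e1, hin, ALcT_inl]
      · refine ALcF_notMem ι c _ ?_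
        rintro ⟨q, hq⟩
        obtain ⟨z, rfl⟩ := ε.surjective q
        rw [hι] at hq
        rcases z with w | j
        · change (Sum.inl (w, ⟨0, hs⟩) : Om p s t) = Sum.inl (y, i) at hq
          rw [Sum.inl.injEq, Prod.mk.injEq] at hq
          exact hi hq.2.symm
        · change (Sum.inr j : Om p s t) = Sum.inl (y, i) at hq
          exact absurd hq (by simp)
    · have e1 : (Sum.inr j : Om p s t) = ι (ε (Sum.inr j)) := by
        rw [hι]
        rfl
      rw [e1, hin, ALcT_inr, hι, hι]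
      rfl
  -- the other cycles
  obtain ⟨y, hyd⟩ : ∃ y : Perm (Om p s t), y = (ALcF ι x)⁻¹ * xe p s t := ⟨_, rfl⟩
  have hxy : ALcF ι x * y = xe p s t := by rw [hyd, mul_inv_cancel_left]
  have hyfix : ∀ i, y (ι i) = ι i := by
    intro i
    obtain ⟨z, rfl⟩ := ε.surjective i
    rw [hyd, Equiv.Perm.mul_apply, ← hFx, ← Equiv.Perm.mul_apply, inv_mul_cancel,
      Equiv.Perm.one_apply]
  have hcomm := ALc_comm ι y hyfix
  have hyp : y ^ p = 1 := by
    have h1 := (show Commute (ALcF ι x) y from hcomm x).mul_pow p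
    rw [hxy, ALc_xe_p, ← map_pow, hxp, map_one, one_mul] at h1
    exact h1.symm
  have hle : (alternatingGroup (Fin n)).map (ALcF ι) ≤ alternatingGroup (Om p s t) := by
    rintro _ ⟨g, hg, rfl⟩
    rw [Equiv.Perm.mem_alternatingGroup, ALcF_sign]
    exact (Equiv.Perm.mem_alternatingGroup).mp hg
  have hfin := hx k p (Perm (Om p s t)) ((alternatingGroup (Fin n)).map (ALcF ι)) (ALcF ι x) y
    (ALcF ι c) ⟨x, hxA, rfl⟩ ⟨c, hcA, rfl⟩ (by
      rintro _ ⟨g, -, rfl⟩
      exact hcomm g) ⟨1, by rw [pow_one, ← map_pow, hxp, map_one]⟩ ⟨1, by rw [pow_one, hyp]⟩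
    (ALc_inf ι y hyfix _) (by rw [← map_mul, ← map_mul, hcx]) (by
      rw [orderOf_injective _ (ALcF_inj ι)]
      exact hcp)
    (ALc_ncl ι (by rw [Nat.card_fin]; exact h5) x hxA hx1 y hyfix) hR'
  rw [hxy, hFc] at hfin
  refine ⟨_, ?_, hfin⟩
  refine sup_le hle ?_
  rw [Subgroup.zpowers_le]
  exact hxeA

end MP7b0bad.AL
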