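import Pool.Agent.Work.MP_7b0bad_ag.AL.Stmts
import Pool.Agent.Work.MP_7b0bad_ag.AllH

set_option autoImplicit false

/-!
# Block AL, item ALd: the purely wild case
-/

namespace MP7b0bad.AL

open Equiv

/-- an element of odd order is even -/
theorem ALd_even {n p : ℕ} (hp : Odd p) (x : Perm (Fin n)) (hx : orderOf x = p) :
    x ∈ alternatingGroup (Fin n) := by
  rw [Equiv.Perm.mem_alternatingGroup]
  have h1 : Equiv.Perm.sign x ^ p = 1 := by
    rw [← map_pow, ← hx, pow_orderOf_eq_one, map_one]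
  rcases Int.units_eq_one_or (Equiv.Perm.sign x) with h | h
  · exact h
  · rw [h, hp.neg_one_pow] at h1
    exact absurd h1 (by decide)

/-- the cyclic subgroup inside the alternating group -/
theorem ALd_sub {n : ℕ} (x : Perm (Fin n)) (hx : x ∈ alternatingGroup (Fin n)) :
    (Subgroup.zpowers x ⊔ Subgroup.zpowers (1 : Perm (Fin n))).subgroupOf
      (alternatingGroup (Fin n)) = Subgroup.zpowers (⟨x, hx⟩ : alternatingGroup (Fin n)) := by
  rw [Subgroup.zpowers_one_eq_bot, sup_bot_eq]
  ext y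
  rw [Subgroup.mem_subgroupOf, Subgroup.mem_zpowers_iff, Subgroup.mem_zpowers_iff]
  constructor
  · rintro ⟨m, hm⟩
    exact ⟨m, Subtype.ext (by simpa using hm)⟩
  · rintro ⟨m, hm⟩
    exact ⟨m, by rw [← hm]; simp⟩

theorem prf_ALd (hAlt3 : MW.WAlt3) (hSd : MW.WSd) (hRel : MW.WRel) : ALd := by
  intro k _ _ p hp _ n x hp2 hn hx
  have hodd : Odd p := hp.out.odd_of_ne_two hp2
  have hxA := ALd_even hodd x hx
  refine ⟨?_, ?_⟩
  · rw [Subgroup.zpowers_one_eq_bot, sup_bot_eq, Subgroup.zpowers_le]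
    exact hxA
  · rw [ALd_sub x hxA]
    have hx' : orderOf (⟨x, hxA⟩ : alternatingGroup (Fin n)) = p := by
      rw [← hx]
      exact (Subgroup.orderOf_mk x hxA)
    by_cases h5 : 5 ≤ p
    · exact hAlt3 p h5 _ (hRel k p) (hSd k p h5) n _ hx'
    · have h3 : p = 3 := by
        have h1 := hp.out.two_le
        have h4 : p ≠ 4 := by
          rintro rfl
          exact absurd hp.out (by norm_num)
        omega
      subst h3
      refine all_HCrit 3 (fun (G : Type) [Group G] (P : Subgroup G) => Rel k G P)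
        (YMain_relAx all_QIso all_QRP all_QR1 all_QR2 all_YBlk k 3) _ _ ?_
        (all_HThree n hn _ hx')
      refine IsPGroup.of_card (n := 1) ?_
      rw [Nat.card_zpowers, hx', pow_one]

end MP7b0bad.AL
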