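import Pool.Agent.Work.MP_7b0bad_ag.AL.Stmts

set_option autoImplicit false

/-!
# Block AL, item ALdec: normal form of `x`, `c`
-/

namespace MP7b0bad.AL

open Equiv

section ALdec

variable {α : Type} {p : ℕ} [Fact p.Prime]

/-- the power `x ^ y` for `y` modulo `p` -/
def ALdec_xp (x : Perm α) (y : ZMod p) : Perm α := x ^ y.val

theorem ALdec_xp_nat {x : Perm α} (hx : orderOf x = p) (k : ℕ) :
    ALdec_xp x (k : ZMod p) = x ^ k := by
  unfold ALdec_xp
  rw [ZMod.val_natCast, ← hx, pow_mod_orderOf]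

theorem ALdec_xp_zero (x : Perm α) : ALdec_xp x (0 : ZMod p) = 1 := by
  unfold ALdec_xp; simp

theorem ALdec_xp_one {x : Perm α} (hx : orderOf x = p) : ALdec_xp x (1 : ZMod p) = x := by
  have h := ALdec_xp_nat hx 1
  simpa using h

theorem ALdec_xp_add {x : Perm α} (hx : orderOf x = p) (y z : ZMod p) :
    ALdec_xp x (y + z) = ALdec_xp x y * ALdec_xp x z := by
  have h : ((y.val + z.val : ℕ) : ZMod p) = y + z := by push_cast; simp
  rw [← h, ALdec_xp_nat hx, pow_add]
  rfl

theorem ALdec_add {x : Perm α} (hx : orderOf x = p) (y z : ZMod p) (w : α) :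
    ALdec_xp x y (ALdec_xp x z w) = ALdec_xp x (y + z) w := by
  rw [ALdec_xp_add hx]; rfl

/-- the stabiliser of a point moved by `x` is trivial -/
theorem ALdec_free {x : Perm α} (hx : orderOf x = p) {w : α} (hw : x w ≠ w) {y : ZMod p}
    (h : ALdec_xp x y w = w) : y = 0 := by
  by_contra hy
  have h1 : ∀ k : ℕ, ALdec_xp x ((k : ZMod p) * y) w = w := by
    intro k
    induction k with
    | zero => simp [ALdec_xp_zero]
    | succ k ih =>
      have : (((k + 1 : ℕ) : ZMod p) * y) = y + (k : ZMod p) * y := by push_cast; ring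
      rw [this, ← ALdec_add hx, ih, h]
  have h2 := h1 (y⁻¹).val
  rw [ZMod.natCast_zmod_val, inv_mul_cancel₀ hy, ALdec_xp_one hx] at h2
  exact hw h2

theorem ALdec_moved {x : Perm α} (hx : orderOf x = p) {w : α} (hw : x w ≠ w) (y : ZMod p) :
    x (ALdec_xp x y w) ≠ ALdec_xp x y w := by
  intro h
  have h1 : ALdec_xp x (1 : ZMod p) (ALdec_xp x y w) = ALdec_xp x y w := by
    rw [ALdec_xp_one hx]; exact h
  rw [ALdec_add hx, add_comm, ← ALdec_add hx] at h1
  have h2 := (ALdec_xp x y).injective h1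
  rw [ALdec_xp_one hx] at h2
  exact hw h2

/-- `c x c⁻¹ = x ^ a` in terms of `ALdec_xp` -/
def ALdec_nrm (x c : Perm α) (a : (ZMod p)ˣ) : Prop :=
  ∀ (y : ZMod p) (w : α), c (ALdec_xp x y w) = ALdec_xp x ((a : ZMod p) * y) (c w)

theorem ALdec_nrm_pow {x c : Perm α} {a : (ZMod p)ˣ} (hn : ALdec_nrm x c a) (k : ℕ) (y : ZMod p)
    (w : α) : (c ^ k) (ALdec_xp x y w) = ALdec_xp x ((a : ZMod p) ^ k * y) ((c ^ k) w) := by
  induction k with
  | zero => simp
  | succ k ih =>
    rw [pow_succ', Perm.mul_apply, ih, hn, Perm.mul_apply, pow_succ']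
    congr 1
    ring_nf

theorem ALdec_unit {x c : Perm α} (hx : orderOf x = p) {a : ℕ} (ha : c * x * c⁻¹ = x ^ a) :
    ∃ u : (ZMod p)ˣ, ALdec_nrm x c u := by
  have hp : p.Prime := Fact.out
  have h0 : (a : ZMod p) ≠ 0 := by
    intro h
    have h1 : x ^ a = 1 := by
      rw [← ALdec_xp_nat hx, h, ALdec_xp_zero]
    rw [h1] at ha
    have h2 : x = 1 := by
      have h3 : c * x = c := by
        have := congrArg (· * c) ha
        simpa [mul_assoc] using this
      exact mul_left_cancel (a := c) (by rw [h3, mul_one])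
    rw [h2, orderOf_one] at hx
    exact hp.one_lt.ne hx
  refine ⟨Units.mk0 _ h0, fun y w => ?_⟩
  have h1 : c * x ^ y.val * c⁻¹ = x ^ (a * y.val) := by
    rw [← conj_pow, ha, pow_mul]
  have h2 : ((a * y.val : ℕ) : ZMod p) = (a : ZMod p) * y := by push_cast; simp
  have h3 : c * ALdec_xp x y = ALdec_xp x ((a : ZMod p) * y) * c := by
    rw [← h2, ALdec_xp_nat hx, ← h1]
    simp [ALdec_xp]
  exact congrArg (fun g : Perm α => g w) h3

/-- good points -/
def ALdec_good (x c : Perm α) (p : ℕ) (o : α) : Prop :=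
  x o ≠ o ∧ ∀ (k : ℕ) (y : ZMod p), (c ^ k) o = ALdec_xp x y o → y = 0

theorem ALdec_exists_good [Finite α] {x c : Perm α} (hx : orderOf x = p) {a : (ZMod p)ˣ}
    (hn : ALdec_nrm x c a) (hc : ¬ p ∣ orderOf c) {w : α} (hw : x w ≠ w) :
    ∃ z : ZMod p, ALdec_good x c p (ALdec_xp x z w) := by
  classical
  have hP : ∃ l : ℕ, 0 < l ∧ ∃ y : ZMod p, (c ^ l) w = ALdec_xp x y w :=
    ⟨orderOf c, orderOf_pos c, 0, by rw [pow_orderOf_eq_one, ALdec_xp_zero]⟩
  obtain ⟨hl, yl, hyl⟩ := Nat.find_spec hP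
  have hmin : ∀ k : ℕ, k < Nat.find hP → (∃ y : ZMod p, (c ^ k) w = ALdec_xp x y w) → k = 0 := by
    intro k hk h
    by_contra hk0
    exact Nat.find_min hP hk ⟨Nat.pos_of_ne_zero hk0, h⟩
  generalize Nat.find hP = l at hl hyl hmin
  -- a fixed point of `c ^ l`
  obtain ⟨z, hz⟩ : ∃ z : ZMod p, (a : ZMod p) ^ l * z + yl = z := by
    by_cases h1 : (a : ZMod p) ^ l = 1
    · refine ⟨0, ?_⟩
      have h2 : ∀ j : ℕ, (c ^ (l * j)) w = ALdec_xp x ((j : ZMod p) * yl) w := by
        intro j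
        induction j with
        | zero => simp [ALdec_xp_zero]
        | succ j ih =>
          rw [mul_add, mul_one, add_comm, pow_add, Perm.mul_apply, ih, ALdec_nrm_pow hn, h1, one_mul,
            hyl, ALdec_add hx]
          congr 2
          push_cast; ring
      have h3 := h2 (orderOf c)
      rw [mul_comm l, pow_mul, pow_orderOf_eq_one, one_pow] at h3
      have h4 := ALdec_free hx hw h3.symm
      have h5 : ((orderOf c : ℕ) : ZMod p) ≠ 0 := by
        rw [Ne, ZMod.natCast_eq_zero_iff]; exact hc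
      rcases mul_eq_zero.1 h4 with h6 | h6
      · exact absurd h6 h5
      · rw [h6]; simp
    · have h2 : (1 : ZMod p) - (a : ZMod p) ^ l ≠ 0 := sub_ne_zero.2 (Ne.symm h1)
      refine ⟨yl / (1 - (a : ZMod p) ^ l), ?_⟩
      field_simp
      ring
  have hfix : (c ^ l) (ALdec_xp x z w) = ALdec_xp x z w := by
    rw [ALdec_nrm_pow hn, hyl, ALdec_add hx, hz]
  refine ⟨z, ALdec_moved hx hw z, fun k y hk => ?_⟩
  have hq : ∀ q : ℕ, (c ^ (l * q)) (ALdec_xp x z w) = ALdec_xp x z w := by
    intro q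
    induction q with
    | zero => simp
    | succ q ih => rw [mul_add, mul_one, add_comm, pow_add, Perm.mul_apply, ih, hfix]
  have h1 : (c ^ (k % l)) (ALdec_xp x z w) = ALdec_xp x y (ALdec_xp x z w) := by
    rw [← hk]
    conv_rhs => rw [← Nat.mod_add_div k l, pow_add, Perm.mul_apply, hq]
  have h2 : k % l = 0 := by
    refine hmin _ (Nat.mod_lt _ hl) ⟨-((a : ZMod p) ^ (k % l) * z) + (y + z), ?_⟩
    rw [ALdec_nrm_pow hn, ALdec_add hx] at h1
    rw [← ALdec_add hx, ← h1, ALdec_add hx, neg_add_cancel, ALdec_xp_zero]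
    rfl
  rw [h2, pow_zero] at h1
  exact ALdec_free hx (ALdec_moved hx hw z) h1.symm

theorem ALdec_good_c {x c : Perm α} {a : (ZMod p)ˣ} (hx : orderOf x = p)
    (hn : ALdec_nrm x c a) {o : α} (ho : ALdec_good x c p o) : ALdec_good x c p (c o) := by
  have hinv : ∀ (y : ZMod p) (w : α), ALdec_xp x y (c w) = c (ALdec_xp x (((a⁻¹ : (ZMod p)ˣ) : ZMod p) * y) w) := by
    intro y w
    rw [hn, ← mul_assoc, Units.mul_inv, one_mul]
  refine ⟨fun h => ?_, fun k y h => ?_⟩
  · have h1 : ALdec_xp x (1 : ZMod p) (c o) = c o := by rw [ALdec_xp_one hx]; exact h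
    rw [hinv] at h1
    have h2 := c.injective h1
    have h3 := ALdec_free hx ho.1 h2
    rw [mul_one] at h3
    exact Units.ne_zero _ h3
  · rw [hinv, ← Perm.mul_apply, ← pow_succ, pow_succ', Perm.mul_apply] at h
    have h2 := ho.2 k _ (c.injective h)
    rcases mul_eq_zero.1 h2 with h3 | h3
    · exact absurd h3 (Units.ne_zero _)
    · exact h3

theorem ALdec_good_pow {x c : Perm α} {a : (ZMod p)ˣ} (hx : orderOf x = p)
    (hn : ALdec_nrm x c a) {o : α} (ho : ALdec_good x c p o) (k : ℕ) :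
    ALdec_good x c p ((c ^ k) o) := by
  induction k with
  | zero => simpa using ho
  | succ k ih => rw [pow_succ', Perm.mul_apply]; exact ALdec_good_c hx hn ih

/-- an invariant set of origins -/
theorem ALdec_origins [Fintype α] [DecidableEq α] {x c : Perm α} {a : (ZMod p)ˣ} (hx : orderOf x = p)
    (hn : ALdec_nrm x c a) (hc : ¬ p ∣ orderOf c) :
    ∃ T : Finset α, (∀ o ∈ T, x o ≠ o) ∧ (∀ o ∈ T, c o ∈ T) ∧
      (∀ o ∈ T, ∀ o' ∈ T, ∀ y : ZMod p, o' = ALdec_xp x y o → o' = o) ∧
      ∀ w, x w ≠ w → ∃ o ∈ T, ∃ y : ZMod p, w = ALdec_xp x y o := by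
  classical
  let 𝒯 : Finset (Finset α) := Finset.univ.filter (fun T =>
    (∀ o ∈ T, ALdec_good x c p o ∧ c o ∈ T) ∧
      ∀ o ∈ T, ∀ o' ∈ T, ∀ y : ZMod p, o' = ALdec_xp x y o → o' = o)
  have hne : 𝒯.Nonempty := ⟨∅, by simp [𝒯]⟩
  obtain ⟨T, hT, hmax⟩ := Finset.exists_max_image 𝒯 Finset.card hne
  obtain ⟨-, hT1, hT2⟩ := Finset.mem_filter.1 hT
  refine ⟨T, fun o ho => (hT1 o ho).1.1, fun o ho => (hT1 o ho).2, hT2, fun w hw => ?_⟩
  by_contra hcon
  push Not at hcon
  obtain ⟨z, hz⟩ := ALdec_exists_good hx hn hc hw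
  generalize ho : ALdec_xp x z w = o at hz
  have hpow : ∀ o' ∈ T, ∀ k : ℕ, (c ^ k) o' ∈ T := by
    intro o' ho' k
    induction k with
    | zero => simpa using ho'
    | succ k ih => rw [pow_succ', Perm.mul_apply]; exact (hT1 _ ih).2
  -- `o` is not equivalent to an element of `T`
  have hno : ∀ o' ∈ T, ∀ y : ZMod p, o ≠ ALdec_xp x y o' := by
    intro o' ho' y h
    refine hcon o' ho' (-z + y) ?_
    rw [← ALdec_add hx, ← h, ← ho, ALdec_add hx, neg_add_cancel, ALdec_xp_zero]
    rfl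
  have hno2 : ∀ o' ∈ T, ∀ (y : ZMod p) (k : ℕ), k < orderOf c → (c ^ k) o ≠ ALdec_xp x y o' := by
    intro o' ho' y k hk h
    have h1 := congrArg (fun v => (c ^ (orderOf c - k)) v) h
    rw [← Perm.mul_apply, ← pow_add, Nat.sub_add_cancel hk.le, pow_orderOf_eq_one,
      ALdec_nrm_pow hn] at h1
    exact hno _ (hpow o' ho' _) _ h1
  let T' : Finset α := T ∪ (Finset.range (orderOf c)).image (fun k => (c ^ k) o)
  have hoT' : o ∈ T' := by
    refine Finset.mem_union_right _ (Finset.mem_image.2 ⟨0, Finset.mem_range.2 (orderOf_pos c), ?_⟩)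
    simp
  have hoT : o ∉ T := fun h => hno o h 0 (by rw [ALdec_xp_zero]; rfl)
  have hcard : T.card < T'.card :=
    Finset.card_lt_card ⟨Finset.subset_union_left, fun h => hoT (h hoT')⟩
  have hT' : T' ∈ 𝒯 := by
    refine Finset.mem_filter.2 ⟨Finset.mem_univ _, ?_, ?_⟩
    · intro u hu
      rcases Finset.mem_union.1 hu with hu | hu
      · exact ⟨(hT1 u hu).1, Finset.mem_union_left _ (hT1 u hu).2⟩
      · obtain ⟨k, hk, rfl⟩ := Finset.mem_image.1 hu
        refine ⟨ALdec_good_pow hx hn hz k, ?_⟩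
        have hk' := Finset.mem_range.1 hk
        by_cases h : k + 1 < orderOf c
        · exact Finset.mem_union_right _ (Finset.mem_image.2 ⟨k + 1, Finset.mem_range.2 h, by
            rw [pow_succ', Perm.mul_apply]⟩)
        · have h1 : k + 1 = orderOf c := by omega
          have h2 : c ((c ^ k) o) = o := by
            rw [← Perm.mul_apply, ← pow_succ', h1, pow_orderOf_eq_one]; rfl
          rw [h2]; exact hoT'
    · intro u hu u' hu' y huu
      rcases Finset.mem_union.1 hu with hu | hu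
      · rcases Finset.mem_union.1 hu' with hu' | hu'
        · exact hT2 u hu u' hu' y huu
        · obtain ⟨k, hk, rfl⟩ := Finset.mem_image.1 hu'
          exact absurd huu (hno2 u hu y k (Finset.mem_range.1 hk))
      · obtain ⟨k, hk, rfl⟩ := Finset.mem_image.1 hu
        rcases Finset.mem_union.1 hu' with hu' | hu'
        · refine absurd ?_ (hno2 u' hu' (-y) k (Finset.mem_range.1 hk))
          rw [huu, ALdec_add hx, neg_add_cancel, ALdec_xp_zero]; rfl
        · obtain ⟨k', hk', rfl⟩ := Finset.mem_image.1 hu'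
          rcases le_total k k' with h | h
          · have h1 : (c ^ (k' - k)) ((c ^ k) o) = ALdec_xp x y ((c ^ k) o) := by
              rw [← huu, ← Perm.mul_apply, ← pow_add, Nat.sub_add_cancel h]
            have h2 := (ALdec_good_pow hx hn hz k).2 _ _ h1
            rw [huu, h2, ALdec_xp_zero]; rfl
          · have h1 : (c ^ (k - k')) ((c ^ k') o) = ALdec_xp x (-y) ((c ^ k') o) := by
              rw [huu, ALdec_add hx, neg_add_cancel, ALdec_xp_zero, ← huu, ← Perm.mul_apply,
                ← pow_add, Nat.sub_add_cancel h]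
              rfl
            have h2 := (ALdec_good_pow hx hn hz k').2 _ _ h1
            have h3 : y = 0 := neg_eq_zero.1 h2
            rw [huu, h3, ALdec_xp_zero]; rfl
  exact absurd (hmax T' hT') (by omega)

end ALdec

theorem prf_ALdec : ALdec := by
  classical
  intro p _ n x c hx hc ⟨a0, ha0⟩
  obtain ⟨a, hn⟩ := ALdec_unit hx ha0
  obtain ⟨T, hT1, hT2, hT3, hT4⟩ := ALdec_origins hx hn hc
  have hp : p.Prime := Fact.out
  let F : Finset (Fin n) := Finset.univ.filter (fun w => x w = w)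
  have hF : ∀ w, w ∈ F ↔ x w = w := fun w => by simp [F]
  let eT : T ≃ Fin T.card := T.equivFin
  let eF : F ≃ Fin F.card := F.equivFin
  let f : Om p T.card F.card → Fin n := fun u => match u with
    | Sum.inl q => ALdec_xp x q.1 (eT.symm q.2).1
    | Sum.inr j => (eF.symm j).1
  have hfl : ∀ q, f (Sum.inl q) = ALdec_xp x q.1 (eT.symm q.2).1 := fun _ => rfl
  have hfr : ∀ j, f (Sum.inr j) = (eF.symm j).1 := fun _ => rfl
  have hxl : ∀ q, x (f (Sum.inl q)) ≠ f (Sum.inl q) := fun q =>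
    ALdec_moved hx (hT1 _ (eT.symm q.2).2) q.1
  have hxr : ∀ j, x (f (Sum.inr j)) = f (Sum.inr j) := fun j => (hF _).1 (eF.symm j).2
  have hfb : Function.Bijective f := by
    constructor
    · rintro (q | j) (q' | j') h
      · rw [hfl, hfl] at h
        have h1 : (eT.symm q'.2).1 = ALdec_xp x (-q'.1 + q.1) (eT.symm q.2).1 := by
          rw [← ALdec_add hx, h, ALdec_add hx, neg_add_cancel, ALdec_xp_zero]; rfl
        have h2 := hT3 _ (eT.symm q.2).2 _ (eT.symm q'.2).2 _ h1
        have h3 : q'.2 = q.2 := eT.symm.injective (Subtype.ext h2)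
        rw [h2] at h1
        have h4 := ALdec_free hx (hT1 _ (eT.symm q.2).2) h1.symm
        have h5 : q.1 = q'.1 := by
          have := neg_add_eq_zero.1 h4
          exact this.symm
        exact congrArg Sum.inl (Prod.ext h5 h3.symm)
      · exact absurd (by rw [h]; exact hxr j') (hxl q)
      · exact absurd (by rw [← h]; exact hxr j) (hxl q')
      · rw [hfr, hfr] at h
        exact congrArg Sum.inr (eF.symm.injective (Subtype.ext h))
    · intro w
      by_cases hw : x w = w
      · refine ⟨Sum.inr (eF ⟨w, (hF w).2 hw⟩), ?_⟩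
        rw [hfr, Equiv.symm_apply_apply]
      · obtain ⟨o, ho, y, hy⟩ := hT4 w hw
        refine ⟨Sum.inl (y, eT ⟨o, ho⟩), ?_⟩
        rw [hfl, Equiv.symm_apply_apply]
        exact hy.symm
  let e0 : Om p T.card F.card ≃ Fin n := Equiv.ofBijective f hfb
  have he0 : ∀ u, e0 u = f u := fun _ => rfl
  have key : ∀ (σ : Perm (Fin n)) (ρ : Perm (Om p T.card F.card)), (∀ u, σ (f u) = f (ρ u)) →
      e0.symm.permCongr σ = ρ := by
    intro σ ρ h
    refine Equiv.ext (fun u => ?_)
    rw [Equiv.permCongr_apply, Equiv.symm_symm, Equiv.symm_apply_eq, he0, he0, h]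
  -- the permutation of the origins
  let πf : T → T := fun o => ⟨c o.1, hT2 _ o.2⟩
  have hπf : Function.Bijective πf := Finite.injective_iff_bijective.1 (fun o o' h =>
    Subtype.ext (c.injective (congrArg Subtype.val h)))
  let π : Perm (Fin T.card) := eT.permCongr (Equiv.ofBijective πf hπf)
  have hπ : ∀ i, (eT.symm (π i)).1 = c (eT.symm i).1 := by
    intro i
    show (eT.symm (eT (πf (eT.symm i)))).1 = _
    rw [Equiv.symm_apply_apply]
  have hcF : ∀ w, x w = w → x (c w) = c w := by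
    intro w hw
    have hy : ∀ y : ZMod p, ALdec_xp x y w = w := by
      intro y
      show (x ^ y.val) w = w
      exact Function.IsFixedPt.perm_pow hw _
    have h1 := hn ((a⁻¹ : (ZMod p)ˣ) : ZMod p) w
    rw [Units.mul_inv, ALdec_xp_one hx, hy] at h1
    exact h1.symm
  let τf : F → F := fun w => ⟨c w.1, (hF _).2 (hcF _ ((hF _).1 w.2))⟩
  have hτf : Function.Bijective τf := Finite.injective_iff_bijective.1 (fun o o' h =>
    Subtype.ext (c.injective (congrArg Subtype.val h)))
  let τ : Perm (Fin F.card) := eF.permCongr (Equiv.ofBijective τf hτf)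
  have hτ : ∀ j, (eF.symm (τ j)).1 = c (eF.symm j).1 := by
    intro j
    show (eF.symm (eF (τf (eF.symm j)))).1 = _
    rw [Equiv.symm_apply_apply]
  -- a moved point
  obtain ⟨w0, hw0⟩ : ∃ w, x w ≠ w := by
    by_contra hcon
    push Not at hcon
    have h1 : x = 1 := Equiv.ext hcon
    rw [h1, orderOf_one] at hx
    exact hp.one_lt.ne hx
  refine ⟨T.card, F.card, e0.symm, a, π, τ, ?_, ?_, ?_, ?_, ?_, ?_⟩
  · obtain ⟨o, ho, _⟩ := hT4 w0 hw0
    exact Finset.card_pos.2 ⟨o, ho⟩
  · refine key x _ ?_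
    rintro (q | j)
    · show x (f (Sum.inl q)) = f (Sum.inl (((1 : (ZMod p)ˣ) : ZMod p) * q.1 + 1, q.2))
      rw [hfl, hfl]
      simp only [Units.val_one, one_mul]
      rw [add_comm, ← ALdec_add hx, ALdec_xp_one hx]
    · exact hxr j
  · refine key c _ ?_
    rintro (q | j)
    · show c (f (Sum.inl q)) = f (Sum.inl ((a : ZMod p) * q.1 + 0, π q.2))
      rw [hfl, hfl, hn, add_zero]
      simp only
      rw [hπ]
    · show c (f (Sum.inr j)) = f (Sum.inr (τ j))
      rw [hfr, hfr, hτ]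
  · refine orderOf_dvd_of_pow_eq_one ?_
    have h1 := ALdec_nrm_pow hn (orderOf c) 1 w0
    rw [pow_orderOf_eq_one, mul_one] at h1
    have h2 : ALdec_xp x (-1 + (a : ZMod p) ^ orderOf c) w0 = w0 := by
      rw [← ALdec_add hx]
      have h3 : ALdec_xp x (1 : ZMod p) w0 = ALdec_xp x ((a : ZMod p) ^ orderOf c) w0 := h1
      rw [← h3, ALdec_add hx, neg_add_cancel, ALdec_xp_zero]; rfl
    have h3 := neg_add_eq_zero.1 (ALdec_free hx hw0 h2)
    refine Units.ext ?_
    rw [Units.val_pow_eq_pow_val, Units.val_one]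
    exact h3.symm
  · refine orderOf_dvd_of_pow_eq_one (Equiv.ext (fun i => ?_))
    have h1 : ∀ k : ℕ, (eT.symm ((π ^ k) i)).1 = (c ^ k) (eT.symm i).1 := by
      intro k
      induction k with
      | zero => simp
      | succ k ih => rw [pow_succ', Perm.mul_apply, hπ, ih, pow_succ', Perm.mul_apply]
    have h2 := h1 (orderOf c)
    rw [pow_orderOf_eq_one] at h2
    exact eT.symm.injective (Subtype.ext h2)
  · refine orderOf_dvd_of_pow_eq_one (Equiv.ext (fun i => ?_))
    have h1 : ∀ k : ℕ, (eF.symm ((τ ^ k) i)).1 = (c ^ k) (eF.symm i).1 := by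
      intro k
      induction k with
      | zero => simp
      | succ k ih => rw [pow_succ', Perm.mul_apply, hτ, ih, pow_succ', Perm.mul_apply]
    have h2 := h1 (orderOf c)
    rw [pow_orderOf_eq_one] at h2
    exact eF.symm.injective (Subtype.ext h2)

end MP7b0bad.AL
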