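import Pool.Agent.Work.MP_7b0bad_ag.AL.Stmts
import Pool.Agent.Work.MP_7b0bad_ag.MT.ANmain

set_option autoImplicit false

/-!
# Block AL, item ALfin: alternating groups, assembly.  Author: helper82.
-/

namespace MP7b0bad.AL

open Equiv

/-- from permutations to the group `alternatingGroup` -/
theorem ALfin_top (k : Type) [Field k] (n : ℕ) (x c : alternatingGroup (Fin n))
    (h : MT.Rz k (Subgroup.zpowers (x : Perm (Fin n))) (c : Perm (Fin n))
      (alternatingGroup (Fin n))) :
    MT.Rz k (Subgroup.zpowers x) c (⊤ : Subgroup (alternatingGroup (Fin n))) := by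
  have hRz := h.2
  rw [MT.ANmain_sub] at hRz
  exact ⟨le_top, MT.ANmain_toTop k _ _ hRz⟩

/-- powers of `c` normalise `P` -/
theorem ALfin_nz (p : ℕ) {G : Type} [Group G] [Finite G] (P : Subgroup G) (c : G)
    (h : MT.Nz p P c) (g : G) (hg : g ∈ Subgroup.zpowers c) : MT.Nz p P g := by
  have hf : IsOfFinOrder c := isOfFinOrder_of_finite c
  obtain ⟨m, rfl⟩ : ∃ m : ℕ, c ^ m = g := by
    rw [← hf.mem_powers_iff_mem_zpowers] at hg
    exact hg
  refine ⟨h.1, fun hd => h.2.1 (hd.trans (orderOf_pow_dvd m)), ?_⟩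
  intro x hx
  induction m with
  | zero => simpa using hx
  | succ m ih =>
    have hg' : c ^ m ∈ Subgroup.zpowers c := Subgroup.pow_mem _ (Subgroup.mem_zpowers c) m
    have h1 := h.2.2 _ (ih hg')
    have h2 : c ^ (m + 1) * x * (c ^ (m + 1))⁻¹ = c * (c ^ m * x * (c ^ m)⁻¹) * c⁻¹ := by
      rw [pow_succ' c m]
      group
    rw [h2]
    exact h1

/-- one `p`-element is enough -/
theorem ALfin_one (hFam : MT.MFam) (k : Type) [Field k] [IsAlgClosed k] (p : ℕ) [Fact p.Prime]
    [CharP k p] (G : Type) [Group G] [Finite G] (P : Subgroup G) (x c : G) (hP : MT.Nz p P c)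
    (hx : x ∈ P) (hcx : ∃ a : ℕ, c * x * c⁻¹ = x ^ a)
    (h : MT.Rz k (Subgroup.zpowers x) c (⊤ : Subgroup G)) : MT.Rz k P c ⊤ := by
  have hxP' : Subgroup.zpowers x ≤ P := by
    rw [Subgroup.zpowers_le]
    exact hx
  have hzx : MT.Nz p (Subgroup.zpowers x) c := by
    refine ⟨hP.1.to_le hxP', hP.2.1, ?_⟩
    intro y hy
    obtain ⟨a, ha⟩ := hcx
    obtain ⟨m, rfl⟩ := Subgroup.mem_zpowers_iff.mp hy
    rw [← conj_zpow, ha]
    exact Subgroup.zpow_mem _ (Subgroup.pow_mem _ (Subgroup.mem_zpowers x) a) m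
  have h1 := hFam k p G P 1 (fun _ => c) (fun _ => Subgroup.zpowers x) (fun _ => ⊤) hP.1
    (fun _ => hP) (fun _ => hzx) (fun _ => hxP') (fun _ _ => Commute.refl c) (fun _ => h)
  simpa using h1

/-- the product of two commuting elements -/
theorem ALfin_two (hFam : MT.MFam) (k : Type) [Field k] [IsAlgClosed k] (p : ℕ) [Fact p.Prime]
    [CharP k p] (G : Type) [Group G] [Finite G] (P : Subgroup G) (c₀ c₁ : G) (h₀ : MT.Nz p P c₀)
    (h₁ : MT.Nz p P c₁) (hc : Commute c₀ c₁) (hR₀ : MT.Rz k P c₀ (⊤ : Subgroup G))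
    (hR₁ : MT.Rz k P c₁ (⊤ : Subgroup G)) : MT.Rz k P (c₀ * c₁) ⊤ := by
  have h1 := hFam k p G P 2 ![c₀, c₁] (fun _ => P) (fun _ => ⊤) h₀.1
    (by intro i; fin_cases i; exacts [h₀, h₁]) (by intro i; fin_cases i; exacts [h₀, h₁])
    (fun _ => le_refl P)
    (by
      intro i j
      fin_cases i <;> fin_cases j
      exacts [Commute.refl _, hc, hc.symm, Commute.refl _])
    (by intro i; fin_cases i; exacts [hR₀, hR₁])
  simpa using h1

/-- ALTERNATING GROUPS -/
theorem prf_ALfin (hodd : ALodd) (hpc : ALpc) (hd : ALd) (hFam : MT.MFam) : ALfin := by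
  intro k _ _ p _ _ n hp2 hn P c hPc hPne hyp
  have hp1 : p.Prime := Fact.out
  -- the case `g = 1`
  have hone : MT.Rz k P 1 (⊤ : Subgroup (alternatingGroup (Fin n))) := by
    obtain ⟨x, hx⟩ : ∃ x : P, orderOf x = p := by
      apply exists_prime_orderOf_dvd_card' p
      have hnt : Nontrivial P := (Subgroup.nontrivial_iff_ne_bot P).mpr hPne
      obtain ⟨m, hm, hm'⟩ := hPc.1.nontrivial_iff_card.mp hnt
      rw [hm']
      exact dvd_pow_self p hm.ne'
    have hx' : orderOf ((x : alternatingGroup (Fin n)) : Perm (Fin n)) = p := by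
      rw [Subgroup.orderOf_coe, Subgroup.orderOf_coe]
      exact hx
    have h1 := hd k p n ((x : alternatingGroup (Fin n)) : Perm (Fin n)) hp2 hn hx'
    have h2 := ALfin_top k n (x : alternatingGroup (Fin n)) 1 h1
    exact ALfin_one hFam k p _ P x 1 (ALfin_nz p P c hPc 1 (Subgroup.one_mem _)) x.2
      ⟨1, by simp⟩ h2
  -- all elements of `⟨c⟩`
  have hall : ∀ N : ℕ, N ≠ 0 → ∀ g ∈ Subgroup.zpowers c, g ^ N = 1 →
      MT.Rz k P g (⊤ : Subgroup (alternatingGroup (Fin n))) := by
    intro N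
    induction N using Nat.recOnPosPrimePosCoprime with
    | zero => intro h; exact absurd rfl h
    | one =>
      intro _ g _ hg
      rw [pow_one] at hg
      rw [hg]
      exact hone
    | prime_pow r m hr hm =>
      intro _ g hg hgr
      by_cases hg1 : g = 1
      · rw [hg1]
        exact hone
      have hord : orderOf g ∣ r ^ m := orderOf_dvd_of_pow_eq_one hgr
      have hrg : r ∣ orderOf g := by
        obtain ⟨j, hj, hj'⟩ := (Nat.dvd_prime_pow hr).mp hord
        rw [hj']
        apply dvd_pow_self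
        rintro rfl
        rw [pow_zero] at hj'
        exact hg1 (orderOf_eq_one_iff.mp hj')
      have hrc : r ∣ orderOf c := hrg.trans (orderOf_dvd_of_mem_zpowers hg)
      obtain ⟨x, hxP, hxo, hx2, hxg⟩ := hyp r hr hrc
      have hga := hxg g hg ⟨m, hgr⟩
      have hNg := ALfin_nz p P c hPc g hg
      have hga' : ∃ a : ℕ, (g : Perm (Fin n)) * x * (g : Perm (Fin n))⁻¹
          = (x : Perm (Fin n)) ^ a := by
        obtain ⟨a, ha⟩ := hga
        refine ⟨a, ?_⟩
        have := congrArg (fun y : alternatingGroup (Fin n) => (y : Perm (Fin n))) ha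
        simpa using this
      have hgo : orderOf (g : Perm (Fin n)) = orderOf g := Subgroup.orderOf_coe g
      have hxo' : orderOf (x : Perm (Fin n)) = p := by
        rw [Subgroup.orderOf_coe]
        exact hxo
      have hgp : ¬ p ∣ orderOf (g : Perm (Fin n)) := by
        rw [hgo]
        exact hNg.2.1
      have hR : MT.Rz k (Subgroup.zpowers (x : Perm (Fin n))) (g : Perm (Fin n))
          (alternatingGroup (Fin n)) := by
        by_cases hr2 : r = 2
        · have hcyc := hx2 hr2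
          exact hpc k p n hp2 hn x g hcyc (by rw [← hcyc.orderOf]; exact hxo') g.2 hgp hga'
        · refine hodd k p n x g hp2 hn hxo' ?_ hgp hga'
          rw [hgo]
          exact Odd.of_dvd_nat ((hr.odd_of_ne_two hr2).pow) hord
      exact ALfin_one hFam k p _ P x g hNg hxP hga (ALfin_top k n x g hR)
    | coprime a b ha hb hab iha ihb =>
      intro _ g hg hgab
      have ha0 : a ≠ 0 := by omega
      have hb0 : b ≠ 0 := by omega
      have hbez : (1 : ℤ) = a * Nat.gcdA a b + b * Nat.gcdB a b := by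
        have h := Nat.gcd_eq_gcd_ab a b
        rw [hab.gcd_eq_one] at h
        exact_mod_cast h
      have hgg : g = g ^ ((b : ℤ) * Nat.gcdB a b) * g ^ ((a : ℤ) * Nat.gcdA a b) := by
        rw [← zpow_add, add_comm, ← hbez, zpow_one]
      have h1 : g ^ ((b : ℤ) * Nat.gcdB a b) ∈ Subgroup.zpowers c := Subgroup.zpow_mem _ hg _
      have h2 : g ^ ((a : ℤ) * Nat.gcdA a b) ∈ Subgroup.zpowers c := Subgroup.zpow_mem _ hg _
      have e1 : (g ^ ((b : ℤ) * Nat.gcdB a b)) ^ a = 1 := by
        rw [← zpow_natCast, ← zpow_mul,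
          show (b : ℤ) * Nat.gcdB a b * (a : ℤ) = ((a * b : ℕ) : ℤ) * Nat.gcdB a b by
            push_cast; ring, zpow_mul, zpow_natCast, hgab, one_zpow]
      have e2 : (g ^ ((a : ℤ) * Nat.gcdA a b)) ^ b = 1 := by
        rw [← zpow_natCast, ← zpow_mul,
          show (a : ℤ) * Nat.gcdA a b * (b : ℤ) = ((a * b : ℕ) : ℤ) * Nat.gcdA a b by
            push_cast; ring, zpow_mul, zpow_natCast, hgab, one_zpow]
      rw [hgg]
      exact ALfin_two hFam k p _ P _ _ (ALfin_nz p P c hPc _ h1) (ALfin_nz p P c hPc _ h2)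
        (Commute.zpow_zpow (Commute.refl g) _ _) (iha ha0 _ h1 e1) (ihb hb0 _ h2 e2)
  have h := hall (orderOf c) (orderOf_pos c).ne' c (Subgroup.mem_zpowers c) (pow_orderOf_eq_one c)
  exact MT.ANmain_ofTop k _ _ h.2

end MP7b0bad.AL
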