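import Pool.Agent.Work.MP_7b0bad_ag.AL.Stmts
import Pool.Agent.Work.MP_7b0bad_ag.MT.ANax

set_option autoImplicit false

/-!
# Block AL, item ALodd: tame part of odd order
-/

namespace MP7b0bad.AL

open Equiv

theorem ALodd_inl (p : ℕ) {s t : ℕ} (a : (ZMod p)ˣ) (b : ZMod p) (π : Perm (Fin s))
    (τ : Perm (Fin t)) (y : ZMod p) (i : Fin s) :
    mp p a b π τ (Sum.inl (y, i)) = Sum.inl (a * y + b, π i) := rfl

theorem ALodd_inr (p : ℕ) {s t : ℕ} (a : (ZMod p)ˣ) (b : ZMod p) (π : Perm (Fin s))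
    (τ : Perm (Fin t)) (j : Fin t) :
    mp p a b π τ (Sum.inr j) = Sum.inr (τ j) := rfl

theorem ALodd_mul (p : ℕ) {s t : ℕ} (a a' : (ZMod p)ˣ) (b b' : ZMod p) (π π' : Perm (Fin s))
    (τ τ' : Perm (Fin t)) :
    mp p a b π τ * mp p a' b' π' τ' = mp p (a * a') (a * b' + b) (π * π') (τ * τ') := by
  ext z
  rcases z with ⟨y, i⟩ | j
  · rw [Perm.mul_apply, ALodd_inl, ALodd_inl, ALodd_inl]
    congr 2
    push_cast
    ring
  · rw [Perm.mul_apply, ALodd_inr, ALodd_inr, ALodd_inr]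
    rfl

theorem ALodd_one (p : ℕ) {s t : ℕ} : mp p 1 0 (1 : Perm (Fin s)) (1 : Perm (Fin t)) = 1 := by
  ext z
  rcases z with ⟨y, i⟩ | j
  · rw [ALodd_inl]
    simp
  · rw [ALodd_inr]
    simp

theorem ALodd_pow (p : ℕ) {s t : ℕ} (a : (ZMod p)ˣ) (π : Perm (Fin s)) (τ : Perm (Fin t)) (m : ℕ) :
    mp p a 0 π τ ^ m = mp p (a ^ m) 0 (π ^ m) (τ ^ m) := by
  induction m with
  | zero => simp only [pow_zero]; exact (ALodd_one p).symm
  | succ m ih =>
    rw [pow_succ, ih, ALodd_mul, pow_succ, pow_succ, pow_succ, mul_zero, add_zero]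

theorem ALodd_xpow (p : ℕ) (s t : ℕ) (m : ℕ) : xe p s t ^ m = mp p 1 (m : ZMod p) 1 1 := by
  induction m with
  | zero => rw [pow_zero, Nat.cast_zero, ALodd_one]
  | succ m ih =>
    rw [pow_succ, ih, ALodd_mul, mul_one, mul_one, mul_one, Units.val_one, mul_one, Nat.cast_succ,
      add_comm]

/-- conjugation of `x` -/
theorem ALodd_conj (p : ℕ) [Fact p.Prime] {s t : ℕ} (a : (ZMod p)ˣ) (π : Perm (Fin s))
    (τ : Perm (Fin t)) :
    mp p a 0 π τ * xe p s t * (mp p a 0 π τ)⁻¹ = xe p s t ^ (a : ZMod p).val := by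
  rw [mul_inv_eq_iff_eq_mul, ALodd_xpow, ALodd_mul, ALodd_mul]
  congr 1
  · rw [mul_one, one_mul]
  · rw [ZMod.natCast_zmod_val]
    simp

/-- sign of an element of odd order -/
theorem ALodd_even {α : Type} [Fintype α] [DecidableEq α] (x : Perm α) (hx : Odd (orderOf x)) :
    x ∈ alternatingGroup α := by
  rw [Equiv.Perm.mem_alternatingGroup]
  have h1 : Equiv.Perm.sign x ^ orderOf x = 1 := by
    rw [← map_pow, pow_orderOf_eq_one, map_one]
  rcases Int.units_eq_one_or (Equiv.Perm.sign x) with h | h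
  · exact h
  · rw [h, hx.neg_one_pow] at h1
    exact absurd h1 (by decide)

/-- the map to permutations of `Fin n` preserves the alternating groups -/
theorem ALodd_map {α β : Type} [Fintype α] [DecidableEq α] [Fintype β] [DecidableEq β]
    (e : α ≃ β) (H : Subgroup (Perm α)) (hH : H ≤ alternatingGroup α) :
    H.map (e.permCongrHom : Perm α ≃* Perm β).toMonoidHom ≤ alternatingGroup β := by
  rintro _ ⟨g, hg, rfl⟩
  have h := hH hg
  rw [Equiv.Perm.mem_alternatingGroup] at h ⊢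
  change Equiv.Perm.sign (e.permCongr g) = 1
  rw [Equiv.Perm.sign_permCongr]
  exact h

/-- joining one factor -/
theorem ALodd_join (hRz : MT.MRz) (k : Type) [Field k] [IsAlgClosed k] (p : ℕ) [Fact p.Prime]
    [CharP k p] (n : ℕ) (x c₀ c₁ : Perm (Fin n)) (H₁ : Subgroup (Perm (Fin n)))
    (hx : orderOf x = p) (h0 : ¬ p ∣ orderOf c₀) (h1 : ¬ p ∣ orderOf c₁)
    (ha0 : ∃ a : ℕ, c₀ * x * c₀⁻¹ = x ^ a) (ha1 : ∃ a : ℕ, c₁ * x * c₁⁻¹ = x ^ a)
    (hcc : c₀ * c₁ = c₁ * c₀) (hH₁ : H₁ ≤ alternatingGroup (Fin n))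
    (hr0 : MT.Rz k (Subgroup.zpowers x) c₀ (alternatingGroup (Fin n)))
    (hr1 : MT.Rz k (Subgroup.zpowers x) c₁ H₁) :
    MT.Rz k (Subgroup.zpowers x) (c₀ * c₁) (alternatingGroup (Fin n)) := by
  have hN : ∀ c : Perm (Fin n), ¬ p ∣ orderOf c → (∃ a : ℕ, c * x * c⁻¹ = x ^ a) →
      MT.Nz p (Subgroup.zpowers x) c := by
    intro c hc ha
    refine ⟨?_, hc, MT.anax_nz ha⟩
    refine IsPGroup.of_card (n := 1) ?_
    rw [Nat.card_zpowers, hx, pow_one]
  have h := hRz k p (Perm (Fin n)) (Subgroup.zpowers x) (Subgroup.zpowers x) (Subgroup.zpowers x)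
    (alternatingGroup (Fin n)) H₁ c₀ c₁ (hN c₀ h0 ha0) (hN c₁ h1 ha1) (hN c₀ h0 ha0)
    (hN c₁ h1 ha1) le_rfl le_rfl hcc hr0 hr1
  have hxA : Subgroup.zpowers x ≤ alternatingGroup (Fin n) := le_sup_left.trans hr0.1
  have he : Subgroup.zpowers x ⊔ alternatingGroup (Fin n) ⊔ H₁ = alternatingGroup (Fin n) := by
    rw [sup_eq_right.mpr hxA, sup_eq_left.mpr hH₁]
  rw [he] at h
  exact h

theorem prf_ALodd (hdec : ALdec) (ha : ALa) (hb : ALb) (hc : ALc) (hd : ALd) (hRz : MT.MRz) :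
    ALodd := by
  intro k _ _ p hp _ n x c hp2 hn hx hco hcp hcx
  obtain ⟨s, t, e, a, π, τ, hs, hxe, hce, oa, oπ, oτ⟩ := hdec p n x c hx hcp hcx
  have hpp : p.Prime := Fact.out
  -- transport
  let E : Perm (Om p s t) ≃* Perm (Fin n) := e.symm.permCongrHom
  have hEx : E (xe p s t) = x := by
    change e.symm.permCongr (xe p s t) = x
    rw [← hxe]
    ext i
    simp
  have hEc : E (mp p a 0 π τ) = c := by
    change e.symm.permCongr (mp p a 0 π τ) = c
    rw [← hce]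
    ext i
    simp
  have odd_of : ∀ {m : ℕ}, m ∣ orderOf c → Odd m := fun {m} h => Odd.of_dvd_nat hco h
  have ndvd_of : ∀ {m : ℕ}, m ∣ orderOf c → ¬ p ∣ m := fun {m} h h' => hcp (h'.trans h)
  -- transported realisations
  have htr : ∀ (d : Perm (Om p s t)),
      (∃ H : Subgroup (Perm (Om p s t)), H ≤ alternatingGroup (Om p s t) ∧
        MT.Rz k (Subgroup.zpowers (xe p s t)) d H) →
      ∃ H : Subgroup (Perm (Fin n)), H ≤ alternatingGroup (Fin n) ∧
        MT.Rz k (Subgroup.zpowers x) (E d) H := by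
    rintro d ⟨H, hH, hR⟩
    refine ⟨H.map E.toMonoidHom, ALodd_map e.symm H hH, ?_⟩
    have := MT.anax_tr p E.toMonoidHom hR
    rw [MonoidHom.map_zpowers] at this
    change MT.Rz k (Subgroup.zpowers (E (xe p s t))) (E d) _ at this
    rw [hEx] at this
    exact this
  -- orders
  have hord : ∀ d : Perm (Om p s t), orderOf (E d) = orderOf d := fun d =>
    orderOf_injective E.toMonoidHom E.injective d
  have hcj : ∀ (a' : (ZMod p)ˣ) (π' : Perm (Fin s)) (τ' : Perm (Fin t)),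
      ∃ m : ℕ, E (mp p a' 0 π' τ') * x * (E (mp p a' 0 π' τ'))⁻¹ = x ^ m := by
    intro a' π' τ'
    refine ⟨(a' : ZMod p).val, ?_⟩
    rw [← hEx, ← map_inv, ← map_mul, ← map_mul, ← map_pow, ALodd_conj]
  have o1 : ¬ p ∣ orderOf (E (mp p a 0 (1 : Perm (Fin s)) (1 : Perm (Fin t)))) := by
    rw [hord]
    refine fun h => ndvd_of oa (h.trans (orderOf_dvd_of_pow_eq_one ?_))
    rw [ALodd_pow, pow_orderOf_eq_one, one_pow, one_pow, ALodd_one]
  have o2 : ¬ p ∣ orderOf (E (mp p 1 0 π (1 : Perm (Fin t)))) := by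
    rw [hord]
    refine fun h => ndvd_of oπ (h.trans (orderOf_dvd_of_pow_eq_one ?_))
    rw [ALodd_pow, pow_orderOf_eq_one, one_pow, one_pow, ALodd_one]
  have o3 : ¬ p ∣ orderOf (E (mp p 1 0 (1 : Perm (Fin s)) τ)) := by
    rw [hord]
    refine fun h => ndvd_of oτ (h.trans (orderOf_dvd_of_pow_eq_one ?_))
    rw [ALodd_pow, pow_orderOf_eq_one, one_pow, one_pow, ALodd_one]
  -- step 1: the part `a`
  have r1 : MT.Rz k (Subgroup.zpowers x) (E (mp p a 0 1 1)) (alternatingGroup (Fin n)) := by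
    by_cases h5 : 5 ≤ p
    · obtain ⟨H, hH, hR⟩ := htr _ (ha k p s t a h5 hs (odd_of oa))
      have := ALodd_join hRz k p n x 1 (E (mp p a 0 1 1)) H hx
        (by rw [orderOf_one]; exact hpp.one_lt.ne' ∘ Nat.dvd_one.mp) o1 ⟨1, by simp⟩ (hcj a 1 1)
        (by rw [one_mul, mul_one]) hH (hd k p n x hp2 hn hx) hR
      rwa [one_mul] at this
    · have h3 : p = 3 := by
        have h1 := hpp.two_le
        have h4 : p ≠ 4 := by
          rintro rfl
          exact absurd hpp (by norm_num)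
        omega
      subst h3
      have ha1 : a = 1 := by
        have h2 : orderOf a ∣ 2 := by
          have := orderOf_dvd_natCard a
          rw [Nat.card_eq_fintype_card, ZMod.card_units_eq_totient] at this
          exact this
        have h3 := odd_of oa
        rcases (Nat.dvd_prime Nat.prime_two).mp h2 with h | h
        · exact orderOf_eq_one_iff.mp h
        · rw [h] at h3
          exact absurd h3 (by decide)
      rw [ha1, ALodd_one, map_one]
      exact hd k 3 n x hp2 hn hx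
  -- step 2: the part `π`
  obtain ⟨H2, hH2, hR2⟩ := htr _ (hb k p s t π hp2 hs (odd_of oπ) (ndvd_of oπ))
  have e12 : mp p a 0 (1 : Perm (Fin s)) (1 : Perm (Fin t)) * mp p 1 0 π 1 = mp p a 0 π 1 := by
    rw [ALodd_mul, mul_one, one_mul, one_mul, mul_zero, add_zero]
  have e21 : mp p 1 0 π (1 : Perm (Fin t)) * mp p a 0 (1 : Perm (Fin s)) 1 = mp p a 0 π 1 := by
    rw [ALodd_mul, mul_one, one_mul, mul_one, mul_zero, add_zero]
  have r2 := ALodd_join hRz k p n x (E (mp p a 0 1 1)) (E (mp p 1 0 π 1)) H2 hx o1 o2 (hcj a 1 1)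
    (hcj 1 π 1) (by rw [← map_mul, ← map_mul, e12, e21]) hH2 r1 hR2
  rw [← map_mul, e12] at r2
  have o12 : ¬ p ∣ orderOf (E (mp p a 0 π (1 : Perm (Fin t)))) := by
    rw [hord]
    refine fun h => hcp (h.trans (orderOf_dvd_of_pow_eq_one ?_))
    rw [ALodd_pow, orderOf_dvd_iff_pow_eq_one.mp oa, orderOf_dvd_iff_pow_eq_one.mp oπ, one_pow,
      ALodd_one]
  -- step 3: the part `τ`
  obtain ⟨H3, hH3, hR3⟩ := htr _ (hc k p s t τ hp2 hs (ALodd_even τ (odd_of oτ)) (ndvd_of oτ))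
  have e23 : mp p a 0 π (1 : Perm (Fin t)) * mp p 1 0 (1 : Perm (Fin s)) τ = mp p a 0 π τ := by
    rw [ALodd_mul, mul_one, mul_one, one_mul, mul_zero, add_zero]
  have e32 : mp p 1 0 (1 : Perm (Fin s)) τ * mp p a 0 π (1 : Perm (Fin t)) = mp p a 0 π τ := by
    rw [ALodd_mul, one_mul, one_mul, mul_one, mul_zero, add_zero]
  have r3 := ALodd_join hRz k p n x (E (mp p a 0 π 1)) (E (mp p 1 0 1 τ)) H3 hx o12 o3 (hcj a π 1)
    (hcj 1 1 τ) (by rw [← map_mul, ← map_mul, e23, e32]) hH3 r2 hR3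
  rw [← map_mul, e23, hEc] at r3
  exact r3

end MP7b0bad.AL
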