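import Pool.Agent.Work.MP_7b0bad_ag.AL.Stmts
import Pool.Agent.Work.MP_7b0bad_ag.MT.ANax

set_option autoImplicit false

/-!
# Block AL: the case `n = p`
-/

namespace MP7b0bad.AL

open Equiv

/-- multiplication by a generator is an odd permutation -/
theorem ALp0_sign (p : ℕ) [Fact p.Prime] (hp : 5 ≤ p) (u : (ZMod p)ˣ)
    (hu : ∀ w : (ZMod p)ˣ, w ∈ Subgroup.zpowers u) :
    Perm.sign (Units.mulLeft u : Perm (ZMod p)) = -1 := by
  have hpp : p.Prime := Fact.out
  have hcard : orderOf u = p - 1 := by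
    have h1 : Subgroup.zpowers u = ⊤ := by
      rw [eq_top_iff]
      exact fun w _ => hu w
    rw [← Nat.card_zpowers, h1, Subgroup.card_top, Nat.card_eq_fintype_card,
      ZMod.card_units_eq_totient, Nat.totient_prime hpp]
  have hu1 : u ≠ 1 := by
    rintro rfl
    rw [orderOf_one] at hcard
    omega
  have hpow : ∀ (k : ℤ), ((Units.mulLeft u : Perm (ZMod p)) ^ k) 1 = ((u ^ k : (ZMod p)ˣ) : ZMod p) := by
    intro k
    have h1 : (Units.mulLeft u : Perm (ZMod p)) ^ k = Units.mulLeft (u ^ k) := by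
      have h2 : ∀ v w : (ZMod p)ˣ, (Units.mulLeft (v * w) : Perm (ZMod p)) =
          Units.mulLeft v * Units.mulLeft w := by
        intro v w
        ext y
        simp [mul_assoc]
      have h3 : (Units.mulLeft (1 : (ZMod p)ˣ) : Perm (ZMod p)) = 1 := by
        ext y
        simp
      exact (map_zpow (⟨⟨fun v => (Units.mulLeft v : Perm (ZMod p)), h3⟩, h2⟩ :
        (ZMod p)ˣ →* Perm (ZMod p)) u k).symm
    rw [h1]
    simp
  have hcyc : (Units.mulLeft u : Perm (ZMod p)).IsCycle := by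
    refine ⟨1, ?_, ?_⟩
    · intro h
      apply hu1
      have h' : ((u : (ZMod p)ˣ) : ZMod p) * 1 = 1 := h
      rw [mul_one] at h'
      exact Units.ext h'
    · intro y hy
      have hy0 : y ≠ 0 := by
        rintro rfl
        exact hy (by simp)
      obtain ⟨k, hk⟩ := hu (Units.mk0 y hy0)
      refine ⟨k, ?_⟩
      rw [hpow]
      have hk' : u ^ k = Units.mk0 y hy0 := hk
      rw [hk']
      rfl
  have hsupp : (Units.mulLeft u : Perm (ZMod p)).support = Finset.univ.erase 0 := by
    ext y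
    rw [Perm.mem_support, Finset.mem_erase]
    constructor
    · intro h
      refine ⟨?_, Finset.mem_univ _⟩
      rintro rfl
      exact h (by simp)
    · rintro ⟨h0, -⟩ h
      apply hu1
      have h' : ((u : (ZMod p)ˣ) : ZMod p) * y = y := h
      have h2 : ((u : (ZMod p)ˣ) : ZMod p) = 1 := by
        apply mul_right_cancel₀ h0
        rw [h', one_mul]
      exact Units.ext h2
  rw [hcyc.sign, hsupp, Finset.card_erase_of_mem (Finset.mem_univ _), Finset.card_univ,
    ZMod.card p]
  have hodd : Odd p := hpp.odd_of_ne_two (by omega)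
  have heven : Even (p - 1) := by
    obtain ⟨m, hm⟩ := hodd
    exact ⟨m, by omega⟩
  rw [heven.neg_one_pow]

/-- the multiplier of an even permutation normalising a full `p`-cycle is a square -/
theorem ALp0_sq (p : ℕ) [Fact p.Prime] (hp : 5 ≤ p) (x c : Perm (Fin p)) (hx : x.IsCycle)
    (hxs : x.support.card = p) (hc : c ∈ alternatingGroup (Fin p)) (a : ℕ)
    (ha : c * x * c⁻¹ = x ^ a) : ((a : ZMod p)) ^ ((p - 1) / 2) = 1 := by
  have hpp : p.Prime := Fact.out
  -- the standard cycle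
  let y : Perm (ZMod p) := Equiv.addRight (1 : ZMod p)
  have hy1 : ∀ i, y i = i + 1 := fun i => rfl
  have hyp : ∀ (m : ℕ) (i : ZMod p), (y ^ m) i = i + m := by
    intro m
    induction m with
    | zero => intro i; simp
    | succ m ih =>
      intro i
      rw [pow_succ, Perm.mul_apply, hy1, ih]
      push_cast
      ring
  have hyc : y.IsCycle := by
    refine ⟨0, ?_, ?_⟩
    · rw [hy1]
      simp
    · intro z _
      refine ⟨(z.val : ℤ), ?_⟩
      rw [zpow_natCast, hyp, zero_add, ZMod.natCast_val, ZMod.cast_id]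
  have hys : y.support.card = p := by
    have : y.support = Finset.univ := by
      ext z
      rw [Perm.mem_support, hy1]
      simp
    rw [this, Finset.card_univ, ZMod.card]
  -- transport
  let e₀ : Fin p ≃ ZMod p := Fintype.equivOfCardEq (by rw [Fintype.card_fin, ZMod.card])
  have hx' : (e₀.permCongr x).IsCycle := by
    obtain ⟨o, ho, ho'⟩ := hx
    refine ⟨e₀ o, ?_, ?_⟩
    · rw [Equiv.permCongr_apply, e₀.symm_apply_apply]
      exact fun h => ho (e₀.injective h)
    · intro z hz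
      rw [Equiv.permCongr_apply] at hz
      have hz' : x (e₀.symm z) ≠ e₀.symm z := fun h => hz (by rw [h, e₀.apply_symm_apply])
      obtain ⟨m, hm⟩ := ho' hz'
      refine ⟨m, ?_⟩
      have h1 : (e₀.permCongr x) ^ m = e₀.permCongr (x ^ m) :=
        (map_zpow e₀.permCongrHom x m).symm
      rw [h1, Equiv.permCongr_apply, e₀.symm_apply_apply, hm, e₀.apply_symm_apply]
  have hxs' : (e₀.permCongr x).support.card = p := by
    have h1 : (e₀.permCongr x).support = x.support.map e₀.toEmbedding := by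
      ext z
      rw [Perm.mem_support, Finset.mem_map, Equiv.permCongr_apply]
      constructor
      · intro h
        refine ⟨e₀.symm z, ?_, e₀.apply_symm_apply z⟩
        rw [Perm.mem_support]
        exact fun h' => h (by rw [h', e₀.apply_symm_apply])
      · rintro ⟨w, hw, rfl⟩
        rw [Perm.mem_support] at hw
        change e₀ (x (e₀.symm (e₀ w))) ≠ e₀ w
        rw [e₀.symm_apply_apply]
        exact fun h' => hw (e₀.injective h')
    rw [h1, Finset.card_map, hxs]
  obtain ⟨g, hg⟩ := isConj_iff.mp (hx'.isConj hyc (by rw [hxs', hys]))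
  let c' : Perm (ZMod p) := g * e₀.permCongr c * g⁻¹
  have hc' : c' * y * c'⁻¹ = y ^ a := by
    have h1 : e₀.permCongrHom c * e₀.permCongrHom x * (e₀.permCongrHom c)⁻¹ =
        (e₀.permCongrHom x) ^ a := by
      rw [← map_inv, ← map_mul, ← map_mul, ha, map_pow]
    have h2 : e₀.permCongr c * e₀.permCongr x * (e₀.permCongr c)⁻¹ = (e₀.permCongr x) ^ a := h1
    calc c' * y * c'⁻¹ = g * (e₀.permCongr c * e₀.permCongr x * (e₀.permCongr c)⁻¹) * g⁻¹ := by
          rw [← hg]; simp only [c']; group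
      _ = g * (e₀.permCongr x) ^ a * g⁻¹ := by rw [h2]
      _ = y ^ a := by rw [← conj_pow, hg]
  have hstep : ∀ i : ZMod p, c' (i + 1) = c' i + a := by
    intro i
    have h1 : c' * y = y ^ a * c' := by rw [← hc']; group
    have h2 := congrArg (fun f : Perm (ZMod p) => f i) h1
    simp only [Perm.mul_apply] at h2
    rw [hy1, hyp] at h2
    exact h2
  have haff : ∀ m : ℕ, c' (m : ZMod p) = a * m + c' 0 := by
    intro m
    induction m with
    | zero => simp
    | succ m ih =>
      push_cast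
      rw [hstep, ih]
      ring
  have haff' : ∀ i : ZMod p, c' i = a * i + c' 0 := by
    intro i
    have h := haff i.val
    rw [ZMod.natCast_val, ZMod.cast_id] at h
    exact h
  have ha0 : (a : ZMod p) ≠ 0 := by
    intro h0
    have h1 := haff' 1
    rw [h0, zero_mul, zero_add] at h1
    exact one_ne_zero (c'.injective h1)
  let A : (ZMod p)ˣ := Units.mk0 (a : ZMod p) ha0
  have hdec : c' = Equiv.addRight (c' 0) * (Units.mulLeft A : Perm (ZMod p)) := by
    ext i
    rw [haff' i]
    rfl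
  have hsc : Perm.sign c' = 1 := by
    have h1 : Perm.sign (e₀.permCongr c) = 1 := by
      rw [Perm.sign_permCongr]
      exact Perm.mem_alternatingGroup.mp hc
    simp only [c', map_mul, map_inv, h1, mul_one, mul_inv_cancel]
  have hsadd : ∀ t : ZMod p, Perm.sign (Equiv.addRight t : Perm (ZMod p)) = 1 := by
    intro t
    have h0 : ∀ (m : ℕ) (i : ZMod p), ((Equiv.addRight t : Perm (ZMod p)) ^ m) i = i + m * t := by
      intro m
      induction m with
      | zero => intro i; simp
      | succ m ih =>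
        intro i
        rw [pow_succ, Perm.mul_apply, ih]
        push_cast
        rw [Equiv.coe_addRight]
        ring
    have h1 : (Equiv.addRight t : Perm (ZMod p)) ^ p = 1 := by
      ext i
      rw [h0]
      simp
    have h2 : (Perm.sign (Equiv.addRight t : Perm (ZMod p))) ^ p = 1 := by
      rw [← map_pow, h1, map_one]
    rcases Int.units_eq_one_or (Perm.sign (Equiv.addRight t : Perm (ZMod p))) with h | h
    · exact h
    · rw [h, (hpp.odd_of_ne_two (by omega)).neg_one_pow] at h2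
      exact absurd h2 (by decide)
  have hsA : Perm.sign (Units.mulLeft A : Perm (ZMod p)) = 1 := by
    have h := hsc
    rw [hdec, map_mul, hsadd, one_mul] at h
    exact h
  obtain ⟨u, hu⟩ := IsCyclic.exists_generator (α := (ZMod p)ˣ)
  have hsu := ALp0_sign p hp u hu
  have hA := hu A
  rw [← mem_powers_iff_mem_zpowers] at hA
  obtain ⟨k, hk⟩ := hA
  have hk' : u ^ k = A := hk
  have hmk : ∀ k : ℕ, (Units.mulLeft (u ^ k) : Perm (ZMod p)) = (Units.mulLeft u) ^ k := by
    intro k
    induction k with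
    | zero => ext i; simp
    | succ k ih =>
      rw [pow_succ, pow_succ, ← ih]
      ext i
      simp [mul_assoc]
  rw [← hk', hmk, map_pow, hsu] at hsA
  have hev : Even k := by
    by_contra hne
    rw [Nat.not_even_iff_odd] at hne
    rw [hne.neg_one_pow] at hsA
    exact absurd hsA (by decide)
  obtain ⟨m, hm⟩ := hev
  have hodd : Odd p := hpp.odd_of_ne_two (by omega)
  have h2 : k * ((p - 1) / 2) = m * (p - 1) := by
    obtain ⟨q, hq⟩ := hodd
    have : (p - 1) / 2 = q := by omega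
    rw [this, hm]
    have : p - 1 = 2 * q := by omega
    rw [this]
    ring
  have h3 : A ^ ((p - 1) / 2) = 1 := by
    rw [← hk', ← pow_mul, h2, mul_comm, pow_mul, ZMod.units_pow_card_sub_one_eq_one, one_pow]
  have h4 := congrArg (Units.val) h3
  rw [Units.val_pow_eq_pow_val, Units.val_one] at h4
  exact h4

/-- the centraliser of a full cycle -/
theorem ALp0_cent (p : ℕ) (x g : Perm (Fin p)) (hx : x.IsCycle) (hxs : x.support.card = p)
    (h : Commute g x) : g ∈ Subgroup.zpowers x := by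
  have hs : x.support = Finset.univ := by
    rw [← Finset.card_eq_iff_eq_univ, hxs, Fintype.card_fin]
  rw [hx.commute_iff] at h
  obtain ⟨h1, h2⟩ := h
  rw [Perm.ofSubtype_subtypePerm] at h2
  · exact h2
  · intro i _
    rw [hs]
    exact Finset.mem_univ _

theorem ALp0_pow {G : Type} [Group G] (x c : G) (b : ℕ) (h : c * x * c⁻¹ = x ^ b) (j : ℕ) :
    c ^ j * x * (c ^ j)⁻¹ = x ^ (b ^ j) := by
  induction j with
  | zero => simp
  | succ j ih =>
    have e : c ^ (j + 1) * x * (c ^ (j + 1))⁻¹ = c * (c ^ j * x * (c ^ j)⁻¹) * c⁻¹ := by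
      rw [pow_succ']; group
    rw [e, ih, ← conj_pow, h, ← pow_mul, pow_succ']

theorem prf_ALp0 (hAp : MW.ApMain) : ALp0 := by
  intro k _ _ p _ _ hp x c hx hxs hc hco hca
  have hpp : p.Prime := Fact.out
  obtain ⟨a, ha⟩ := hca
  obtain ⟨x₀, c₀, hx₀, hxs₀, hco₀, ⟨b, hb⟩, hm₀, hR₀⟩ := hAp p k hp
  obtain ⟨g, hg⟩ := isConj_iff.mp (hx₀.isConj hx (by rw [hxs₀, hxs]))
  set c₁ : Perm (Fin p) := g * c₀ * g⁻¹ with hc₁
  have hb₁ : c₁ * x * c₁⁻¹ = x ^ b := by
    rw [← hg, conj_pow, ← hb, hc₁]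
    group
  have hox : orderOf x = p := by rw [hx.orderOf, hxs]
  have hoc₁ : ¬ p ∣ orderOf c₁ := by
    have : orderOf c₁ = orderOf c₀ :=
      orderOf_injective (MulAut.conj g).toMonoidHom (MulAut.conj g).injective c₀
    rw [this]
    exact hco₀
  have hR₁ : MT.Rz k (Subgroup.zpowers x) c₁ (alternatingGroup (Fin p)) := by
    have h := MT.anax_tr p (MulAut.conj g).toMonoidHom hR₀
    rw [MonoidHom.map_zpowers] at h
    have e1 : (MulAut.conj g).toMonoidHom x₀ = x := hg
    have e2 : (MulAut.conj g).toMonoidHom c₀ = c₁ := rfl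
    have e3 : (alternatingGroup (Fin p)).map (MulAut.conj g).toMonoidHom =
        alternatingGroup (Fin p) := by
      have hn : (alternatingGroup (Fin p)).Normal := inferInstance
      exact Subgroup.Normal.map_conj_eq _ _
    rw [e1, e2, e3] at h
    exact h
  have hNz : MT.Nz p (Subgroup.zpowers x) c₁ := by
    refine ⟨?_, hoc₁, MT.anax_nz ⟨b, hb₁⟩⟩
    refine IsPGroup.of_card (n := 1) ?_
    rw [Nat.card_zpowers, hox, pow_one]
  have hm₁ : ∀ m : ℕ, c₁ ^ m * x = x * c₁ ^ m → (p - 1) / 2 ∣ m := by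
    intro m hm
    apply hm₀
    have e1 : c₁ ^ m = g * c₀ ^ m * g⁻¹ := by rw [hc₁, conj_pow]
    rw [e1, ← hg] at hm
    have h2 : g * (c₀ ^ m * x₀) * g⁻¹ = g * (x₀ * c₀ ^ m) * g⁻¹ := by
      calc g * (c₀ ^ m * x₀) * g⁻¹ = g * c₀ ^ m * g⁻¹ * (g * x₀ * g⁻¹) := by group
        _ = g * x₀ * g⁻¹ * (g * c₀ ^ m * g⁻¹) := hm
        _ = _ := by group
    exact mul_left_cancel (mul_right_cancel h2)
  have hxpow : ∀ m n : ℕ, (m : ZMod p) = (n : ZMod p) → x ^ m = x ^ n := by
    intro m n h
    rw [pow_eq_pow_iff_modEq, hox]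
    exact (ZMod.natCast_eq_natCast_iff m n p).mp h
  have hd : (p - 1) / 2 ∣ orderOf (b : ZMod p) := by
    apply hm₁
    have h1 := ALp0_pow x c₁ b hb₁ (orderOf (b : ZMod p))
    have h2 : x ^ (b ^ orderOf (b : ZMod p)) = x ^ 1 := by
      apply hxpow
      push_cast
      rw [pow_orderOf_eq_one]
    rw [h2, pow_one, mul_inv_eq_iff_eq_mul] at h1
    exact h1
  have hb0 : (b : ZMod p) ≠ 0 := by
    intro h0
    have h1 : x ^ b = x ^ 0 := hxpow b 0 (by rw [h0]; simp)
    rw [h1, pow_zero, mul_inv_eq_one, mul_eq_left] at hb₁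
    rw [hb₁, orderOf_one] at hox
    omega
  have hpos : 0 < orderOf (b : ZMod p) := by
    have h1 : (b : ZMod p) ^ (p - 1) = 1 := ZMod.pow_card_sub_one_eq_one hb0
    rw [orderOf_pos_iff]
    exact isOfFinOrder_iff_pow_eq_one.mpr ⟨p - 1, by omega, h1⟩
  have haq : (a : ZMod p) ^ orderOf (b : ZMod p) = 1 := by
    obtain ⟨q, hq⟩ := hd
    rw [hq, pow_mul, ALp0_sq p hp x c hx hxs hc a ha, one_pow]
  have : NeZero (orderOf (b : ZMod p)) := ⟨hpos.ne'⟩
  obtain ⟨j, -, hj⟩ := (IsPrimitiveRoot.orderOf (b : ZMod p)).eq_pow_of_pow_eq_one haq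
  have h1 := ALp0_pow x c₁ b hb₁ j
  have h2 : x ^ (b ^ j) = x ^ a := by
    apply hxpow
    push_cast
    exact hj
  rw [h2, ← ha] at h1
  have h3 : Commute ((c₁ ^ j)⁻¹ * c) x := by
    change (c₁ ^ j)⁻¹ * c * x = x * ((c₁ ^ j)⁻¹ * c)
    have h4 : c * x * c⁻¹ = c₁ ^ j * x * (c₁ ^ j)⁻¹ := h1.symm
    calc (c₁ ^ j)⁻¹ * c * x = (c₁ ^ j)⁻¹ * (c * x * c⁻¹) * c := by group
      _ = (c₁ ^ j)⁻¹ * (c₁ ^ j * x * (c₁ ^ j)⁻¹) * c := by rw [h4]
      _ = _ := by group
  obtain ⟨t, ht⟩ := ALp0_cent p x _ hx hxs h3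
  have ht' : x ^ t = (c₁ ^ j)⁻¹ * c := ht
  have hsup : Subgroup.zpowers x ⊔ Subgroup.zpowers c =
      Subgroup.zpowers x ⊔ Subgroup.zpowers (c₁ ^ j) := by
    have hxm : ∀ K : Subgroup (Perm (Fin p)), x ^ t ∈ Subgroup.zpowers x ⊔ K := fun K =>
      (le_sup_left : Subgroup.zpowers x ≤ _) (Subgroup.zpow_mem _ (Subgroup.mem_zpowers x) t)
    apply le_antisymm
    · refine sup_le le_sup_left ?_
      rw [Subgroup.zpowers_le]
      have e : c = c₁ ^ j * x ^ t := by rw [ht']; group
      rw [e]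
      exact Subgroup.mul_mem _ ((le_sup_right : Subgroup.zpowers (c₁ ^ j) ≤ _)
        (Subgroup.mem_zpowers _)) (hxm _)
    · refine sup_le le_sup_left ?_
      rw [Subgroup.zpowers_le]
      have e : c₁ ^ j = c * (x ^ t)⁻¹ := by rw [ht']; group
      rw [e]
      exact Subgroup.mul_mem _ ((le_sup_right : Subgroup.zpowers c ≤ _)
        (Subgroup.mem_zpowers _)) (Subgroup.inv_mem _ (hxm _))
  have hR := MT.anax_pow p j hNz hR₁
  unfold MT.Rz at hR ⊢
  rw [hsup]
  exact hR

end MP7b0bad.AL
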