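import Pool.Agent.Work.MP_7b0bad_ag.AL.Stmts
import Pool.Agent.Work.MP_7b0bad_ag.MT.ANax
import Pool.Agent.Work.MP_7b0bad_ag.MT.MSgn

set_option autoImplicit false

/-!
# Item ALp1: a `p`-cycle in the alternating group of degree `p + 1`
-/

namespace MP7b0bad.AL

open Equiv

/-- a permutation which fixes all points outside the range of `ι` comes from the subset -/
theorem ALp1_lift {m n : ℕ} (ι : Fin m ↪ Fin n) (g : Perm (Fin n))
    (h : ∀ i, i ∉ Set.range ι → g i = i) : ∃ g₀ : Perm (Fin m), Perm.viaEmbeddingHom ι g₀ = g := by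
  have hr : ∀ i, g i ∈ Set.range ι ↔ i ∈ Set.range ι := by
    intro i
    constructor
    · intro hi
      by_contra h2
      rw [h i h2] at hi
      exact h2 hi
    · intro hi
      by_contra h2
      have h3 := h (g i) h2
      have h4 : g i = i := g.injective h3
      rw [h4] at h2
      exact h2 hi
  let e : Fin m ≃ Set.range ι := Equiv.ofInjective ι ι.injective
  let g₁ : Perm (Set.range ι) := g.subtypePerm hr
  refine ⟨(e.trans g₁).trans e.symm, ?_⟩
  ext i
  by_cases hi : i ∈ Set.range ι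
  · obtain ⟨j, rfl⟩ := hi
    rw [Perm.viaEmbeddingHom_apply, Perm.viaEmbedding_apply]
    have h5 : ι ((e.trans g₁).trans e.symm j) = (e (((e.trans g₁).trans e.symm) j) : Fin n) := rfl
    rw [h5]
    simp only [Equiv.trans_apply, Equiv.apply_symm_apply]
    rfl
  · rw [Perm.viaEmbeddingHom_apply, Perm.viaEmbedding_apply_of_notMem _ _ _ hi, h i hi]

/-- a transitive subgroup which contains the even permutations fixing a point -/
theorem ALp1_top {n : ℕ} (hn : 4 ≤ n) (J : Subgroup (Perm (Fin n))) (i₀ : Fin n)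
    (h0 : ∀ g : Perm (Fin n), g ∈ alternatingGroup (Fin n) → g i₀ = i₀ → g ∈ J)
    (ht : ∀ j, ∃ h ∈ J, h i₀ = j) : alternatingGroup (Fin n) ≤ J := by
  rw [← Perm.closure_three_cycles_eq_alternating, Subgroup.closure_le]
  intro g hg
  have h3 : g.support.card = 3 := hg.card_support
  obtain ⟨j, hj⟩ : ∃ j, j ∉ g.support := by
    by_contra hc
    push Not at hc
    have : g.support = Finset.univ := Finset.eq_univ_iff_forall.2 hc
    rw [this, Finset.card_univ, Fintype.card_fin] at h3
    omega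
  obtain ⟨h, hh, hij⟩ := ht j
  have h1 : h⁻¹ * g * h ∈ J := by
    refine h0 _ ?_ ?_
    · have h2 : g ∈ alternatingGroup (Fin n) := hg.mem_alternatingGroup
      have := (inferInstance : (alternatingGroup (Fin n)).Normal).conj_mem g h2 h⁻¹
      rwa [inv_inv] at this
    · rw [Perm.mul_apply, Perm.mul_apply, hij, Perm.notMem_support.1 hj, ← hij]
      exact h.symm_apply_apply i₀
  have h2 : g = h * (h⁻¹ * g * h) * h⁻¹ := by group
  rw [SetLike.mem_coe, h2]
  exact J.mul_mem (J.mul_mem hh h1) (J.inv_mem hh)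

theorem prf_ALp1 (hp0 : ALp0) (hAb : MT.AbMain) (hRz : MT.MRz) : ALp1 := by
  intro k _ _ p _ _ h5 x c hx hxs hcA hco hca
  have hpp : p.Prime := Fact.out
  have hp2 : p ≠ 2 := by omega
  have hp1 : ¬ p ∣ 1 := fun h => hpp.one_lt.ne' (Nat.dvd_one.1 h)
  have hox : orderOf x = p := by rw [hx.orderOf, hxs]
  have hNz : ∀ y d : Perm (Fin (p + 1)), orderOf y = p → ¬ p ∣ orderOf d →
      (∃ a : ℕ, d * y * d⁻¹ = y ^ a) → MT.Nz p (Subgroup.zpowers y) d := by
    intro y d hy hd ha
    refine ⟨?_, hd, MT.anax_nz ha⟩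
    refine IsPGroup.of_card (n := 1) ?_
    rw [Nat.card_zpowers, hy, pow_one]
  obtain ⟨H, x', c', hx', hxs', hco', hca', -, -, -, htr, hR⟩ := hAb p k 1 hp2 one_pos hp1
  have hox' : orderOf x' = p := by rw [hx'.orderOf, hxs']
  -- the tame part is removed
  have hR0 : MT.Rz k (Subgroup.zpowers x') 1 H := by
    have := MT.anax_pow p 0 (hNz x' c' hox' hco' hca') hR
    rwa [pow_zero] at this
  -- conjugation
  obtain ⟨g, hg⟩ := isConj_iff.1 (hx'.isConj hx (hxs'.trans hxs.symm))
  have hR1 : MT.Rz k (Subgroup.zpowers x) 1 (H.map (MulAut.conj g).toMonoidHom) := by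
    have := MT.anax_tr p (MulAut.conj g).toMonoidHom hR0
    rw [MonoidHom.map_zpowers, map_one] at this
    have e : (MulAut.conj g).toMonoidHom x' = x := hg
    rwa [e] at this
  -- the fixed point
  have hcard : (x.supportᶜ).card = 1 := by
    rw [Finset.card_compl, Fintype.card_fin, hxs]
    omega
  obtain ⟨i₀, hi₀⟩ := Finset.card_eq_one.1 hcard
  have hfix : ∀ i, i ∉ x.support → i = i₀ := by
    intro i hi
    have : i ∈ x.supportᶜ := Finset.mem_compl.2 hi
    rwa [hi₀, Finset.mem_singleton] at this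
  have hi₀s : i₀ ∉ x.support := by
    have : i₀ ∈ x.supportᶜ := by rw [hi₀]; exact Finset.mem_singleton_self i₀
    exact Finset.mem_compl.1 this
  have hci : c i₀ = i₀ := by
    obtain ⟨a, ha⟩ := hca
    have hs : (c * x * c⁻¹).support = x.support := by
      refine Finset.eq_of_subset_of_card_le ?_ ?_
      · rw [ha]
        exact Perm.support_pow_le x a
      · rw [Perm.card_support_conj]
    refine hfix _ ?_
    have e1 : c⁻¹ (c i₀) = i₀ := c.symm_apply_apply i₀
    rw [← hs, Perm.notMem_support, Perm.mul_apply, Perm.mul_apply, e1,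
      Perm.notMem_support.1 hi₀s]
  -- the embedding
  let ι : Fin p ↪ Fin (p + 1) := (x.support.orderEmbOfFin hxs).toEmbedding
  have hι : Set.range ι = (x.support : Set (Fin (p + 1))) := Finset.range_orderEmbOfFin _ hxs
  let V : Perm (Fin p) →* Perm (Fin (p + 1)) := Perm.viaEmbeddingHom ι
  have hVinj : Function.Injective V := Perm.viaEmbeddingHom_injective ι
  have hV1 : ∀ (f : Perm (Fin p)) (i : Fin p), V f (ι i) = ι (f i) := fun f i =>
    Perm.viaEmbedding_apply f ι i
  have hni : ∀ i, i ∉ Set.range ι → i = i₀ := by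
    intro i hi
    rw [hι] at hi
    exact hfix i hi
  have hsgn : ∀ f : Perm (Fin p), V f ∈ alternatingGroup (Fin (p + 1)) →
      f ∈ alternatingGroup (Fin p) := by
    intro f hf
    rw [Perm.mem_alternatingGroup] at hf ⊢
    rw [← hf]
    change _ = Perm.sign (Perm.viaEmbedding f ι)
    unfold Perm.viaEmbedding
    let _ : DecidablePred (fun x => x ∈ Set.range ι.1) := fun a => Classical.propDecidable _
    exact (Perm.sign_extendDomain f (Equiv.ofInjective ι.1 ι.2)).symm
  obtain ⟨x₀, hx₀⟩ := ALp1_lift ι x (fun i hi => by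
    rw [hni i hi]
    exact Perm.notMem_support.1 hi₀s)
  obtain ⟨c₀, hc₀⟩ := ALp1_lift ι c (fun i hi => by rw [hni i hi, hci])
  change V x₀ = x at hx₀
  change V c₀ = c at hc₀
  have hx₀c : x₀.IsCycle := by
    obtain ⟨a, ha, hay⟩ := hx
    have har : a ∈ Set.range ι := by
      by_contra h
      exact ha (by rw [hni a h]; exact Perm.notMem_support.1 hi₀s)
    obtain ⟨a₀, rfl⟩ := har
    refine ⟨a₀, ?_, ?_⟩
    · intro h
      exact ha (by rw [← hx₀, hV1, h])
    · intro y hy
      obtain ⟨m, hm⟩ := hay (y := ι y) (by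
        rw [← hx₀, hV1]
        exact fun h => hy (ι.injective h))
      refine ⟨m, ι.injective ?_⟩
      rw [← hm, ← hx₀, ← map_zpow, hV1]
  have hx₀s : x₀.support.card = p := by
    have h1 : orderOf x₀ = p := by
      rw [← orderOf_injective V hVinj x₀, hx₀, hox]
    rw [← hx₀c.orderOf, h1]
  have hA0 : MT.Rz k (Subgroup.zpowers x₀) c₀ (alternatingGroup (Fin p)) := by
    refine hp0 k p h5 x₀ c₀ hx₀c hx₀s (hsgn c₀ (by rw [hc₀]; exact hcA)) ?_ ?_
    · rw [← orderOf_injective V hVinj c₀, hc₀]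
      exact hco
    · obtain ⟨a, ha⟩ := hca
      refine ⟨a, hVinj ?_⟩
      rw [map_mul, map_mul, map_inv, map_pow, hx₀, hc₀, ha]
  have hA1 : MT.Rz k (Subgroup.zpowers x) c ((alternatingGroup (Fin p)).map V) := by
    have := MT.anax_tr p V hA0
    rwa [MonoidHom.map_zpowers, hx₀, hc₀] at this
  have hN := hNz x c hox hco hca
  have hN1 : MT.Nz p (Subgroup.zpowers x) 1 :=
    hNz x 1 hox (by rwa [orderOf_one]) ⟨1, by group⟩
  have hJ := hRz k p (Perm (Fin (p + 1))) (Subgroup.zpowers x) (Subgroup.zpowers x)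
    (Subgroup.zpowers x) ((alternatingGroup (Fin p)).map V)
    (H.map (MulAut.conj g).toMonoidHom) c 1 hN hN1 hN hN1 le_rfl le_rfl
    (by rw [mul_one, one_mul]) hA1 hR1
  rw [mul_one] at hJ
  have hJe : Subgroup.zpowers x ⊔ (alternatingGroup (Fin p)).map V ⊔
      H.map (MulAut.conj g).toMonoidHom = alternatingGroup (Fin (p + 1)) := by
    refine le_antisymm ?_ ?_
    · intro h hh
      rw [Perm.mem_alternatingGroup]
      exact MT.prf_MSgn k p _ _ hp2 hJ.2 (Perm.sign.comp (Subgroup.subtype _)) ⟨h, hh⟩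
    · refine ALp1_top (by omega) _ i₀ ?_ ?_
      · intro h hA hh
        obtain ⟨h₀, hh₀⟩ := ALp1_lift ι h (fun i hi => by rw [hni i hi, hh])
        change V h₀ = h at hh₀
        refine (le_sup_right.trans le_sup_left : (alternatingGroup (Fin p)).map V ≤ _) ?_
        exact ⟨h₀, hsgn h₀ (by rw [hh₀]; exact hA), hh₀⟩
      · intro j
        obtain ⟨h, hh, hij⟩ := htr (g⁻¹ i₀) (g⁻¹ j)
        refine ⟨g * h * g⁻¹, ?_, ?_⟩
        · refine (le_sup_right : H.map (MulAut.conj g).toMonoidHom ≤ _) ?_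
          exact ⟨h, hh, rfl⟩
        · rw [Perm.mul_apply, Perm.mul_apply, hij]
          exact g.apply_symm_apply j
  rw [hJe] at hJ
  exact hJ

end MP7b0bad.AL
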