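import Pool.Agent.Work.MP_7b0bad_ag.AL.Stmts
import Pool.Agent.Work.MP_7b0bad_ag.MT.ANax
import Pool.Agent.Work.MP_7b0bad_ag.MT.ANgrp
import Pool.Agent.Work.MP_7b0bad_ag.MT.MSgn

set_option autoImplicit false

/-!
# `x` a `p`-cycle, every `n`
-/

namespace MP7b0bad.AL

theorem prf_ALpc (hp0 : ALp0) (hp1 : ALp1) (hAb : MT.AbMain) (hRz : MT.MRz) : ALpc := by
  intro k _ _ p _ _ n hp hn x c hx hxs hcA hcp hcx
  have hpp : p.Prime := Fact.out
  have hle : p ≤ n := by
    have h1 := Finset.card_le_univ x.support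
    rw [hxs, Fintype.card_fin] at h1
    exact h1
  by_cases h2 : p + 2 ≤ n
  · exact (MT.prf_ANgrp p n hp h2 _ (MT.prf_ANax hRz MT.prf_MSgn hAb k p n hp) x c hx hxs hcA
      hcp hcx).2.2.2
  · have hp5 : 5 ≤ p := by
      have h4 : 4 ≤ p := by omega
      rcases Nat.lt_or_ge 4 p with h | h
      · exact h
      · exfalso
        have h5 : p = 4 := by omega
        rw [h5] at hpp
        exact absurd hpp (by norm_num)
    rcases (by omega : n = p ∨ n = p + 1) with h | h
    · subst h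
      exact hp0 k n hp5 x c hx hxs hcA hcp hcx
    · subst h
      exact hp1 k p hp5 x c hx hxs hcA hcp hcx

end MP7b0bad.AL
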