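import Pool.Agent.Work.MP_7b0bad_ag.AL.Stmts
import Pool.Agent.Work.MP_7b0bad_ag.MT.MSolv

set_option autoImplicit false

/-!
# Item ALx: a central `p`-element can be added
-/

namespace MP7b0bad.AL

/-- subgroups of order a power of `p` satisfy the coprimality condition -/
theorem ALx_cop (p : ℕ) [Fact p.Prime] {G : Type} [Group G] [Finite G] (N : Subgroup G) (c : G)
    (hN : IsPGroup p N) : GT.CopC p N c := by
  intro r hr hrp hd
  exfalso
  obtain ⟨n, hn⟩ := IsPGroup.iff_card.1 hN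
  have h1 : r ∣ Nat.card N := hd.trans (Subgroup.relIndex_dvd_card _ _)
  rw [hn] at h1
  exact hrp ((Nat.prime_dvd_prime_iff_eq hr Fact.out).1 (hr.dvd_of_dvd_pow h1))

/-- the group generated by an element of order a power of `p` -/
theorem ALx_zp (p : ℕ) [Fact p.Prime] {G : Type} [Group G] (g : G) (m : ℕ) (h : g ^ p ^ m = 1) :
    IsPGroup p (Subgroup.zpowers g) := by
  rintro ⟨y, hy⟩
  obtain ⟨n, rfl⟩ := Subgroup.mem_zpowers_iff.1 hy
  refine ⟨m, Subtype.ext ?_⟩
  show (g ^ n) ^ p ^ m = 1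
  rw [← zpow_natCast, ← zpow_mul, mul_comm, zpow_mul, zpow_natCast, h, one_zpow]

theorem ALx_sub {G : Type} [Group G] (H : Subgroup G) (g : G) (hg : g ∈ H) :
    (Subgroup.zpowers g).subgroupOf H = Subgroup.zpowers (⟨g, hg⟩ : H) := by
  have hz : Subgroup.zpowers g ≤ H := by rwa [Subgroup.zpowers_le]
  apply Subgroup.map_injective H.subtype_injective
  rw [Subgroup.map_subgroupOf_eq_of_le hz, MonoidHom.map_zpowers]
  rfl

theorem prf_ALx : ALx := by
  intro k _ _ p _ _ G _ _ A x₁ x' c hx₁ hcA hcen hp₁ hp' _ hcx hcop hncl hRz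
  obtain ⟨m₁, hm₁⟩ := hp₁
  obtain ⟨m', hm'⟩ := hp'
  obtain ⟨hle, hrel⟩ := hRz
  set u : G := x₁ * x' with hu
  set H : Subgroup G := A ⊔ Subgroup.zpowers u with hH
  have hAH : A ≤ H := le_sup_left
  have huH : u ∈ H := (le_sup_right : Subgroup.zpowers u ≤ H) (Subgroup.mem_zpowers u)
  have hx'H : x' ∈ H := by
    have : x' = x₁⁻¹ * u := by rw [hu]; group
    rw [this]
    exact H.mul_mem (H.inv_mem (hAH hx₁)) huH
  have hcH : c ∈ H := hAH hcA
  have hPH : Subgroup.zpowers u ≤ H := le_sup_right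
  have hPcH : Subgroup.zpowers u ⊔ Subgroup.zpowers c ≤ H :=
    sup_le hPH (by rwa [Subgroup.zpowers_le])
  have hux' : x₁ * x' = x' * x₁ := hcen x₁ hx₁
  have hcu : c * u = u * c := by
    rw [hu, ← mul_assoc, hcx, mul_assoc, hcen c hcA, mul_assoc]
  -- `x'` is central in `H`
  have hcH' : ∀ h ∈ H, h * x' = x' * h := by
    intro h hh
    have : H ≤ Subgroup.centralizer {x'} := by
      refine sup_le ?_ ?_
      · intro a ha
        rw [Subgroup.mem_centralizer_singleton_iff]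
        exact hcen a ha
      · rw [Subgroup.zpowers_le, Subgroup.mem_centralizer_singleton_iff, hu, mul_assoc, ← mul_assoc x' x₁,
          ← hux', mul_assoc]
    exact (Subgroup.mem_centralizer_singleton_iff).1 (this hh)
  set N : Subgroup H := Subgroup.zpowers (⟨x', hx'H⟩ : H) with hN
  have hNc : N ≤ Subgroup.center H := by
    rw [hN, Subgroup.zpowers_le, Subgroup.mem_center_iff]
    intro g
    exact Subtype.ext (hcH' g g.2)
  have hNn : N.Normal := ⟨fun n hn g => by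
    have h1 : g * n = n * g := Subgroup.mem_center_iff.1 (hNc hn) g
    rw [h1, mul_assoc, mul_inv_cancel, mul_one]
    exact hn⟩
  have hNp : IsPGroup p N := ALx_zp p _ m' (Subtype.ext hm')
  have hNs : Group.IsSolvable N :=
    Group.isSolvable_of_comm fun a b => Subtype.ext ((Subgroup.mem_center_iff.1 (hNc b.2) a.1))
  have hup : IsPGroup p (Subgroup.zpowers u) := by
    refine ALx_zp p u (m₁ + m') ?_
    have hcm : Commute x₁ x' := hux'
    rw [hu, hcm.mul_pow, pow_add, pow_mul, hm₁, one_pow, one_mul, mul_comm (p ^ m₁), pow_mul, hm', one_pow]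
  have hD : GT.Dat p ((Subgroup.zpowers u).subgroupOf H) (⟨c, hcH⟩ : H) := by
    refine ⟨?_, ?_, ?_, MT.MSolv_ncl _ H hPH hncl⟩
    · exact hup.comap_of_injective H.subtype H.subtype_injective
    · intro q hq
      have h1 : c * (q : G) = q * c := by
        obtain ⟨n, hn⟩ := Subgroup.mem_zpowers_iff.1 (Subgroup.mem_subgroupOf.1 hq)
        rw [← hn]
        exact (Commute.zpow_right (show Commute c u from hcu) n)
      have h2 : (⟨c, hcH⟩ : H) * q * (⟨c, hcH⟩ : H)⁻¹ = q := by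
        rw [mul_inv_eq_iff_eq_mul]
        exact Subtype.ext h1
      rw [h2]
      exact hq
    · rwa [Subgroup.orderOf_mk]
  refine ⟨hPcH, ?_⟩
  rw [← MT.MSolv_pc (Subgroup.zpowers u) H c hPcH hcH]
  have hT := GT.all_GAx p _ (MP7b0bad.SV.all_VRAx k p)
  refine GT.all_GMain p _ hT H ((Subgroup.zpowers u).subgroupOf H) N ⟨c, hcH⟩ hD hNs
    (ALx_cop p N _ hNp) ?_
  -- the quotient
  let q : A →* H ⧸ N := (QuotientGroup.mk' N).comp (Subgroup.inclusion hAH)
  have hqu : q ⟨x₁, hx₁⟩ = QuotientGroup.mk' N ⟨u, huH⟩ := by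
    show ((⟨x₁, hAH hx₁⟩ : H) : H ⧸ N) = ((⟨u, huH⟩ : H) : H ⧸ N)
    rw [QuotientGroup.eq]
    have : (⟨x₁, hAH hx₁⟩ : H)⁻¹ * ⟨u, huH⟩ = ⟨x', hx'H⟩ := by
      apply Subtype.ext
      show x₁⁻¹ * u = x'
      rw [hu]; group
    rw [this]
    exact Subgroup.mem_zpowers _
  have hqc : q ⟨c, hcA⟩ = QuotientGroup.mk' N ⟨c, hcH⟩ := rfl
  have hq : Function.Surjective q := by
    have hK : H ≤ (q.range.comap (QuotientGroup.mk' N)).map H.subtype := by
      refine sup_le ?_ ?_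
      · intro a ha
        exact ⟨⟨a, hAH ha⟩, ⟨⟨a, ha⟩, rfl⟩, rfl⟩
      · rw [Subgroup.zpowers_le]
        exact ⟨⟨u, huH⟩, ⟨⟨x₁, hx₁⟩, hqu⟩, rfl⟩
    intro y
    obtain ⟨h, rfl⟩ := QuotientGroup.mk'_surjective N y
    obtain ⟨h', hh', he⟩ := hK h.2
    have : h' = h := Subtype.ext he
    subst this
    exact hh'
  have h := hT.quo A (H ⧸ N) q _ hq hrel
  have he : ((Subgroup.zpowers x₁ ⊔ Subgroup.zpowers c).subgroupOf A).map q
      = (GT.Pc ((Subgroup.zpowers u).subgroupOf H) (⟨c, hcH⟩ : H)).map (QuotientGroup.mk' N) := by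
    rw [Subgroup.subgroupOf_sup (le_sup_left.trans hle) (le_sup_right.trans hle),
      ALx_sub A x₁ hx₁, ALx_sub A c hcA, GT.Pc, ALx_sub H u huH, Subgroup.map_sup,
      Subgroup.map_sup, MonoidHom.map_zpowers, MonoidHom.map_zpowers, MonoidHom.map_zpowers,
      MonoidHom.map_zpowers, hqu, hqc]
  rw [← he]
  exact h

end MP7b0bad.AL
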