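import Pool.Agent.Work.MP_7b0bad_ag.AL.ALa
import Pool.Agent.Work.MP_7b0bad_ag.AL.ALb
import Pool.Agent.Work.MP_7b0bad_ag.AL.ALc
import Pool.Agent.Work.MP_7b0bad_ag.AL.ALd
import Pool.Agent.Work.MP_7b0bad_ag.AL.ALdec
import Pool.Agent.Work.MP_7b0bad_ag.AL.ALfin
import Pool.Agent.Work.MP_7b0bad_ag.AL.ALodd
import Pool.Agent.Work.MP_7b0bad_ag.AL.ALp0
import Pool.Agent.Work.MP_7b0bad_ag.AL.ALp1
import Pool.Agent.Work.MP_7b0bad_ag.AL.ALpc
import Pool.Agent.Work.MP_7b0bad_ag.AL.ALred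
import Pool.Agent.Work.MP_7b0bad_ag.AL.ALx
import Pool.Agent.Work.MP_7b0bad_ag.AL.Stmts
import Pool.Agent.Work.MP_7b0bad_ag.MT.All
import Pool.Agent.Work.MP_7b0bad_ag.MW.All

set_option autoImplicit false

/-!
# Block AL: assembly without hypotheses
-/

namespace MP7b0bad.AL

theorem all_ALp0 : ALp0 := prf_ALp0 ApT.all_ApMain
theorem all_ALp1 : ALp1 := prf_ALp1 all_ALp0 MT.all_AbMain MT.all_MRz
theorem all_ALpc : ALpc := prf_ALpc all_ALp0 all_ALp1 MT.all_AbMain MT.all_MRz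
theorem all_ALx : ALx := prf_ALx
theorem all_ALdec : ALdec := prf_ALdec
theorem all_ALa : ALa := prf_ALa all_ALp0
theorem all_ALb : ALb := prf_ALb MT.all_MSolv
theorem all_ALc : ALc := prf_ALc all_ALpc all_ALx
theorem all_ALd : ALd := prf_ALd MW.all_WAlt3 MW.all_WSd MW.all_WRel
theorem all_ALodd : ALodd := prf_ALodd all_ALdec all_ALa all_ALb all_ALc all_ALd MT.all_MRz
theorem all_ALfin : ALfin := prf_ALfin all_ALodd all_ALpc all_ALd MT.all_MFam
theorem all_ALred : ALred := prf_ALred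

end MP7b0bad.AL
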