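import Pool.Agent.Work.MP_7b0bad_ag.AL.Stmts
import Pool.Agent.Work.MP_7b0bad_ag.MT.ANax

set_option autoImplicit false

/-!
# Item ALa: the diagonal copy of `A_p`
-/

namespace MP7b0bad.AL

open Equiv

/-- action on the first coordinate -/
def ALa_j0 (p s t : ℕ) : Perm (ZMod p) →* Perm (Om p s t) where
  toFun σ := Perm.sumCongr ((Equiv.prodCongr σ (1 : Perm (Fin s)) : Perm (ZMod p × Fin s))) 1
  map_one' := by
    ext x
    rcases x with ⟨y, i⟩ | j <;> rfl
  map_mul' σ τ := by
    ext x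
    rcases x with ⟨y, i⟩ | j <;> rfl

theorem ALa_j0_mp (p s t : ℕ) (a : (ZMod p)ˣ) (b : ZMod p) :
    ALa_j0 p s t ((Units.mulLeft a).trans (Equiv.addRight b)) = mp p a b 1 1 := rfl

/-- multiplication as a homomorphism -/
def ALa_m (p : ℕ) : (ZMod p)ˣ →* Perm (ZMod p) where
  toFun a := Units.mulLeft a
  map_one' := by ext x; simp
  map_mul' a b := by ext x; simp [mul_assoc]

theorem ALa_m_inj (p : ℕ) : Function.Injective (ALa_m p) := by
  intro a b h
  have h1 : (ALa_m p a) 1 = (ALa_m p b) 1 := by rw [h]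
  apply Units.ext
  simpa [ALa_m] using h1

theorem ALa_sign {α : Type} [Fintype α] [DecidableEq α] (σ : Perm α) (h : Odd (orderOf σ)) :
    Perm.sign σ = 1 := by
  have h1 : (Perm.sign σ) ^ orderOf σ = 1 := by
    rw [← map_pow, pow_orderOf_eq_one, map_one]
  rcases Int.units_eq_one_or (Perm.sign σ) with h2 | h2
  · exact h2
  · rw [h2, h.neg_one_pow] at h1
    exact absurd h1 (by decide)

/-- translations as a homomorphism -/
def ALa_t (p : ℕ) : Multiplicative (ZMod p) →* Perm (ZMod p) where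
  toFun a := Equiv.addRight (Multiplicative.toAdd a)
  map_one' := by ext x; simp
  map_mul' a b := by
    ext x
    simp only [toAdd_mul, Equiv.coe_addRight, Perm.coe_mul, Function.comp_apply]
    ring

theorem ALa_zpow (p : ℕ) (m : ℤ) :
    (Equiv.addRight (1 : ZMod p)) ^ m = Equiv.addRight (m • (1 : ZMod p)) := by
  have := map_zpow (ALa_t p) (Multiplicative.ofAdd 1) m
  exact this.symm

theorem ALa_pow (p : ℕ) (m : ℕ) :
    (Equiv.addRight (1 : ZMod p)) ^ m = Equiv.addRight (m • (1 : ZMod p)) := by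
  have := map_pow (ALa_t p) (Multiplicative.ofAdd 1) m
  exact this.symm

/-- a homomorphism to `ℤˣ` is trivial on the alternating group -/
theorem ALa_hom {α : Type} [Fintype α] [DecidableEq α] (f : Perm α →* ℤˣ) (σ : Perm α)
    (h : σ ∈ alternatingGroup α) : f σ = 1 := by
  by_cases hs : Function.Surjective f
  · rw [Equiv.Perm.eq_sign_of_surjective_hom hs]
    exact h
  · rcases Int.units_eq_one_or (f σ) with h2 | h2
    · exact h2
    · refine absurd (fun u => ?_) hs
      rcases Int.units_eq_one_or u with h3 | h3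
      · exact ⟨1, by rw [h3, map_one]⟩
      · exact ⟨σ, by rw [h3, h2]⟩

theorem prf_ALa (hp0 : ALp0) : ALa := by
  intro k _ _ p _ _ s t a hp5 hs ha
  have hpp : p.Prime := Fact.out
  have : NeZero p := ⟨hpp.ne_zero⟩
  -- identification of `Fin p` with `ZMod p`
  let e : Fin p ≃ ZMod p := (ZMod.finEquiv p).toEquiv
  let E : Perm (Fin p) ≃* Perm (ZMod p) := e.permCongrHom
  let J : Perm (Fin p) →* Perm (Om p s t) := (ALa_j0 p s t).comp E.toMonoidHom
  let x₀ : Perm (Fin p) := E.symm (Equiv.addRight (1 : ZMod p))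
  let c₀ : Perm (Fin p) := E.symm (Units.mulLeft a)
  have hx0 : ∀ i, x₀ i = e.symm (e i + 1) := fun i => rfl
  have hx0z : ∀ (m : ℤ) (i : Fin p), (x₀ ^ m) i = e.symm (e i + m • (1 : ZMod p)) := by
    intro m i
    have h1 : x₀ ^ m = E.symm (Equiv.addRight (m • (1 : ZMod p))) := by
      rw [← ALa_zpow, map_zpow]
    rw [h1]
    rfl
  have hne : ∀ i, x₀ i ≠ i := by
    intro i h
    rw [hx0, Equiv.symm_apply_eq] at h
    have : Fact (1 < p) := ⟨hpp.one_lt⟩
    exact one_ne_zero (add_eq_left.mp h)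
  have hJx : J x₀ = xe p s t := by
    change ALa_j0 p s t (E (E.symm _)) = mp p 1 1 1 1
    rw [MulEquiv.apply_symm_apply, ← ALa_j0_mp]
    congr 1
    ext y
    simp
  have hJc : J c₀ = mp p a 0 1 1 := by
    change ALa_j0 p s t (E (E.symm _)) = _
    rw [MulEquiv.apply_symm_apply, ← ALa_j0_mp]
    congr 1
    ext y
    simp
  have hoc : orderOf c₀ = orderOf a := by
    have h1 : orderOf c₀ = orderOf (ALa_m p a) :=
      orderOf_injective E.symm.toMonoidHom E.symm.injective (ALa_m p a)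
    rw [h1]
    exact orderOf_injective (ALa_m p) (ALa_m_inj p) a
  have hcyc : x₀.IsCycle := by
    refine ⟨e.symm 0, hne _, fun y _ => ?_⟩
    refine ⟨((e y).val : ℤ), ?_⟩
    rw [hx0z, Equiv.apply_symm_apply, zero_add, Equiv.symm_apply_eq]
    simp
  have hsup : x₀.support.card = p := by
    have h1 : x₀.support = Finset.univ := by
      ext i
      simp only [Equiv.Perm.mem_support, Finset.mem_univ, iff_true]
      exact hne i
    rw [h1, Finset.card_univ, Fintype.card_fin]
  have hcA : c₀ ∈ alternatingGroup (Fin p) := by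
    rw [Equiv.Perm.mem_alternatingGroup]
    exact ALa_sign c₀ (hoc ▸ ha)
  have hcp : ¬ p ∣ orderOf c₀ := by
    intro h
    rw [hoc] at h
    have h1 : orderOf a ∣ p - 1 := ZMod.orderOf_units_dvd_card_sub_one a
    have h2 := Nat.le_of_dvd (by have := hpp.two_le; omega) (h.trans h1)
    have := hpp.two_le
    omega
  have hcx : ∃ a' : ℕ, c₀ * x₀ * c₀⁻¹ = x₀ ^ a' := by
    refine ⟨(a : ZMod p).val, ?_⟩
    have h1 : (Units.mulLeft a : Perm (ZMod p)) * Equiv.addRight (1 : ZMod p)
        * (Units.mulLeft a : Perm (ZMod p))⁻¹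
        = Equiv.addRight (1 : ZMod p) ^ (a : ZMod p).val := by
      rw [ALa_pow]
      ext y
      change (a : ZMod p) * ((↑a⁻¹ : ZMod p) * y + 1) = y + (a : ZMod p).val • (1 : ZMod p)
      rw [mul_add, ← mul_assoc, Units.mul_inv, one_mul, mul_one, nsmul_one,
        ZMod.natCast_zmod_val]
    change E.symm _ * E.symm _ * (E.symm _)⁻¹ = (E.symm _) ^ _
    rw [← map_mul, ← map_inv, ← map_mul, h1, map_pow]
  have hR := MT.anax_tr p J (hp0 k p hp5 x₀ c₀ hcyc hsup hcA hcp hcx)
  rw [MonoidHom.map_zpowers, hJx, hJc] at hR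
  refine ⟨_, ?_, hR⟩
  rintro _ ⟨σ, hσ, rfl⟩
  rw [Equiv.Perm.mem_alternatingGroup]
  exact ALa_hom (Perm.sign.comp J) σ hσ

end MP7b0bad.AL
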