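import Pool.Agent.Work.MP_7b0bad_ag.AL.Stmts
import Pool.Agent.Work.MP_7b0bad_ag.SV.GHyp

set_option autoImplicit false

/-!
# Block AL: `ALred`, the inertia groups in `A_n` when `n < 3 p`
-/

namespace MP7b0bad.AL

open Equiv

/-- two commuting cycles are disjoint or powers of each other -/
theorem ALred_cyc {α : Type} [Fintype α] [DecidableEq α] {x y : Perm α} (hx : x.IsCycle)
    (hy : y.IsCycle) (hxy : Commute y x) :
    Disjoint x.support y.support ∨ (x.support = y.support ∧ y ∈ Subgroup.zpowers x) := by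
  by_cases hd : Disjoint x.support y.support
  · exact Or.inl hd
  right
  obtain ⟨z, hzx, hzy⟩ := Finset.not_disjoint_iff.1 hd
  obtain ⟨h1, h1'⟩ := (hx.commute_iff (g := y)).1 hxy
  obtain ⟨h2, -⟩ := (hy.commute_iff (g := x)).1 hxy.symm
  have key : ∀ (u v : Perm α) (_ : v.IsCycle) (_ : ∀ w : α, v w ∈ u.support ↔ w ∈ u.support),
      z ∈ u.support → z ∈ v.support → v.support ⊆ u.support := by
    intro u v hv huv hu hzv w hw
    obtain ⟨i, hi⟩ := hv.exists_zpow_eq (Perm.mem_support.1 hzv) (Perm.mem_support.1 hw)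
    have hall : ∀ j : ℤ, ∀ w : α, (v ^ j) w ∈ u.support ↔ w ∈ u.support := by
      intro j
      induction j using Int.induction_on with
      | zero => intro w; simp
      | succ k ih =>
        intro w
        rw [zpow_add_one, Perm.mul_apply, ih, huv]
      | pred k ih =>
        intro w
        rw [zpow_sub_one, Perm.mul_apply, ih]
        rw [← huv (v⁻¹ w)]
        simp
    rw [← hi, hall]
    exact hu
  have hs : x.support = y.support :=
    Finset.Subset.antisymm (key y x hx h2 hzy hzx) (key x y hy h1 hzx hzy)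
  refine ⟨hs, ?_⟩
  rw [Perm.ofSubtype_subtypePerm] at h1'
  · exact h1'
  · intro w hw
    rw [hs]
    exact Perm.mem_support.2 hw

/-- a permutation of odd order permuting two sets of size `p` in `n < 3 p` points -/
theorem ALred_odd (p n : ℕ) (hn : n < 3 * p) (x c : Perm (Fin n)) (hx : x.IsCycle)
    (hxp : orderOf x = p) (hc : Odd (orderOf c)) (hcom : ∀ i j : ℕ,
      Commute (c ^ i * x * (c ^ i)⁻¹) (c ^ j * x * (c ^ j)⁻¹)) :
    c * x * c⁻¹ ∈ Subgroup.zpowers x := by
  have hcard : x.support.card = p := by rw [← hx.orderOf, hxp]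
  have hcy : ∀ i : ℕ, (c ^ i * x * (c ^ i)⁻¹).IsCycle := fun i => hx.conj
  have hsup : ∀ (i : ℕ), (c ^ i * x * (c ^ i)⁻¹).support =
      x.support.map (c ^ i).toEmbedding := fun i => Perm.support_conj
  have h01 := ALred_cyc (hcy 0) (hcy 1) (hcom 1 0)
  have h12 := ALred_cyc (hcy 1) (hcy 2) (hcom 2 1)
  have h02 := ALred_cyc (hcy 0) (hcy 2) (hcom 2 0)
  rcases h01 with h01 | h01
  swap
  · simpa using h01.2
  exfalso
  -- `c` maps the supports
  have hmem : ∀ (i : ℕ) (z : Fin n), z ∈ (c ^ (i + 1) * x * (c ^ (i + 1))⁻¹).support ↔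
      c⁻¹ z ∈ (c ^ i * x * (c ^ i)⁻¹).support := by
    intro i z
    rw [Perm.mem_support, Perm.mem_support, pow_succ']
    simp only [Perm.mul_apply, mul_inv_rev]
    rw [not_iff_not]
    constructor
    · intro h
      rw [Perm.eq_inv_iff_eq]
      exact h
    · intro h
      rw [Perm.eq_inv_iff_eq] at h
      exact h
  have hd12 : Disjoint (c ^ 1 * x * (c ^ 1)⁻¹).support (c ^ 2 * x * (c ^ 2)⁻¹).support := by
    rw [Finset.disjoint_left] at h01 ⊢
    intro z hz hz2
    exact h01 ((hmem 0 z).1 hz) ((hmem 1 z).1 hz2)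
  rcases h02 with h02 | h02
  · -- three disjoint sets
    have e1 : ∀ i : ℕ, (c ^ i * x * (c ^ i)⁻¹).support.card = p := by
      intro i
      rw [hsup, Finset.card_map, hcard]
    have hU : ((c ^ 0 * x * (c ^ 0)⁻¹).support ∪ (c ^ 1 * x * (c ^ 1)⁻¹).support ∪
        (c ^ 2 * x * (c ^ 2)⁻¹).support).card = 3 * p := by
      rw [Finset.card_union_of_disjoint, Finset.card_union_of_disjoint h01, e1, e1, e1]
      · ring
      · rw [Finset.disjoint_union_left]
        exact ⟨h02, hd12⟩
    have hle := Finset.card_le_univ ((c ^ 0 * x * (c ^ 0)⁻¹).support ∪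
      (c ^ 1 * x * (c ^ 1)⁻¹).support ∪ (c ^ 2 * x * (c ^ 2)⁻¹).support)
    rw [hU, Fintype.card_fin] at hle
    omega
  · -- the support is invariant under `c ^ 2`
    have h2 : ∀ z : Fin n, (c ^ 2) z ∈ x.support ↔ z ∈ x.support := by
      intro z
      have h3 := h02.1
      simp only [pow_zero, one_mul, inv_one, mul_one] at h3
      rw [h3, hmem 1, hmem 0]
      have h9 : c⁻¹ (c⁻¹ ((c ^ 2) z)) = z := by
        rw [← Perm.mul_apply, ← Perm.mul_apply]
        have h10 : c⁻¹ * c⁻¹ * c ^ 2 = 1 := by group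
        rw [h10, Perm.one_apply]
      rw [h9]
      simp only [pow_zero, one_mul, inv_one, mul_one]
      rw [← h3]
    have h4 : ∀ (k : ℕ) (z : Fin n), ((c ^ 2) ^ k) z ∈ x.support ↔ z ∈ x.support := by
      intro k
      induction k with
      | zero => intro z; simp
      | succ k ih =>
        intro z
        rw [pow_succ, Perm.mul_apply, ih, h2]
    obtain ⟨m, hm⟩ := hc
    have h5 : (c ^ 2) ^ (m + 1) = c := by
      rw [← pow_mul, show 2 * (m + 1) = orderOf c + 1 by omega, pow_succ, pow_orderOf_eq_one,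
        one_mul]
    obtain ⟨z, hz⟩ : x.support.Nonempty := by
      rw [← Finset.card_pos, hcard]
      have := hxp ▸ orderOf_pos x
      exact this
    have h6 : c z ∈ x.support := by
      have h7 := (h4 (m + 1) z).2 hz
      rwa [h5] at h7
    rw [Finset.disjoint_left] at h01
    refine h01 (a := c z) ?_ ?_
    · simpa using h6
    · rw [hmem 0]
      simpa using hz

/-- the exponent of `p` in `n!` for `n < 3 p` -/
theorem ALred_fac (p : ℕ) [Fact p.Prime] (n : ℕ) (hp : p ≠ 2) (hn : n < 3 * p) :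
    n.factorial.factorization p ≤ 2 := by
  have hpp : p.Prime := Fact.out
  have hp3 : 3 ≤ p := by
    have := hpp.two_le
    omega
  have h1 : padicValNat p n.factorial = ∑ i ∈ Finset.Ico 1 2, n / p ^ i := by
    apply padicValNat_factorial
    apply Nat.log_lt_of_lt_pow'
    · norm_num
    · nlinarith
  rw [Nat.factorization_def _ hpp, h1]
  simp only [Finset.sum_Ico_eq_sum_range]
  simp
  have h3 : n / p < 3 := Nat.div_lt_of_lt_mul (by linarith)
  omega

/-- a subgroup of order `p²` contains a `p`-cycle -/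
theorem ALred_ex (p : ℕ) [Fact p.Prime] (n : ℕ) (hp : p ≠ 2) (hn : n < 3 * p)
    (P : Subgroup (Perm (Fin n))) (hP : Nat.card P = p ^ 2) :
    ∃ y ∈ P, y.IsCycle ∧ orderOf y = p := by
  have hpp : p.Prime := Fact.out
  have hG : Nat.card (Perm (Fin n)) = n.factorial := by
    rw [Nat.card_eq_fintype_card, Fintype.card_perm, Fintype.card_fin]
  have hfac : (Nat.card (Perm (Fin n))).factorization p = 2 := by
    apply le_antisymm
    · rw [hG]
      exact ALred_fac p n hp hn
    · rw [← hpp.pow_dvd_iff_le_factorization (Nat.card_pos).ne', ← hP]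
      exact Subgroup.card_subgroup_dvd_card _
  -- a `p`-cycle
  obtain ⟨f, hf, hfp⟩ : ∃ f : Perm (Fin n), f.IsCycle ∧ orderOf f = p := by
    obtain ⟨x, hx⟩ := exists_prime_orderOf_dvd_card' (G := Perm (Fin n)) p (by
      refine dvd_trans ?_ (Subgroup.card_subgroup_dvd_card P)
      rw [hP]
      exact dvd_pow_self p two_ne_zero)
    have hx1 : x ≠ 1 := by
      rintro rfl
      rw [orderOf_one] at hx
      exact hpp.one_lt.ne hx
    have hne : x.cycleFactorsFinset.Nonempty := by
      rw [Finset.nonempty_iff_ne_empty]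
      intro h
      exact hx1 (Perm.cycleFactorsFinset_eq_empty_iff.1 h)
    obtain ⟨f, hf⟩ := hne
    have hfc : f.IsCycle := (Perm.mem_cycleFactorsFinset_iff.1 hf).1
    refine ⟨f, hfc, ?_⟩
    have h1 : f.support.card ∈ x.cycleType := by
      rw [Perm.cycleType_def]
      exact Multiset.mem_map.2 ⟨f, hf, rfl⟩
    have h2 := Perm.dvd_of_mem_cycleType h1
    rw [hx, ← hfc.orderOf] at h2
    rcases (Nat.dvd_prime hpp).1 h2 with h3 | h3
    · exact absurd (orderOf_eq_one_iff.1 h3) hfc.ne_one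
    · exact h3
  have hfg : IsPGroup p (Subgroup.zpowers f) := by
    apply IsPGroup.of_card (n := 1)
    rw [Nat.card_zpowers, hfp, pow_one]
  obtain ⟨Q, hQ⟩ := hfg.exists_le_sylow
  obtain ⟨g, hg⟩ := MulAction.exists_smul_eq (Perm (Fin n)) Q
    (Sylow.ofCard P (by rw [hP, hfac]))
  refine ⟨g * f * g⁻¹, ?_, hf.conj, ?_⟩
  · have h1 : g * f * g⁻¹ ∈ ((g • Q : Sylow p (Perm (Fin n))) : Subgroup (Perm (Fin n))) := by
      rw [Sylow.coe_subgroup_smul]
      exact Subgroup.smul_mem_pointwise_smul f (MulAut.conj g) _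
        (hQ (Subgroup.mem_zpowers f))
    rw [hg] at h1
    exact h1
  · rw [← hfp]
    exact (MulAut.conj g).orderOf_eq f

/-- the tame generator has odd order -/
theorem ALred_ord (p : ℕ) [Fact p.Prime] {G : Type} [Group G] [Finite G] (G₁ G₀ : Subgroup G)
    (hn : (G₁.subgroupOf G₀).Normal) (hp : IsPGroup p G₁) (c : G) (hc : c ∈ G₀)
    (hcop : ¬ p ∣ orderOf c) (hodd : Odd (G₁.subgroupOf G₀).index) : Odd (orderOf c) := by
  have hpp : p.Prime := Fact.out
  have h1 : c ^ (G₁.subgroupOf G₀).index ∈ G₁ := by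
    have h2 : (⟨c, hc⟩ : G₀) ^ (G₁.subgroupOf G₀).index ∈ G₁.subgroupOf G₀ :=
      Subgroup.pow_index_mem _ _
    exact Subgroup.mem_subgroupOf.1 h2
  obtain ⟨k, hk⟩ := hp ⟨_, h1⟩
  have hk' : (c ^ (G₁.subgroupOf G₀).index) ^ p ^ k = 1 := congrArg Subtype.val hk
  rw [← pow_mul] at hk'
  have h3 := orderOf_dvd_of_pow_eq_one hk'
  have h4 : orderOf c ∣ (G₁.subgroupOf G₀).index := by
    refine Nat.Coprime.dvd_of_dvd_mul_right ?_ h3
    exact Nat.Coprime.pow_right k ((Nat.Prime.coprime_iff_not_dvd hpp).2 hcop).symm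
  exact hodd.of_dvd_nat h4

theorem prf_ALred : ALred := by
  intro p _ n hp2 hn G₁ G₀ hne hH hodd
  have hpp : p.Prime := Fact.out
  obtain ⟨h1, h2, h3, h4, h5, h6⟩ := hH
  obtain ⟨c, hc, hG₀⟩ := GT.prf_GHyp p (alternatingGroup (Fin n)) G₀ G₁ h1 h2 h3 h4 h5 h6
  have hcG : c ∈ G₀ := by
    rw [hG₀]
    exact (le_sup_right : Subgroup.zpowers c ≤ G₁ ⊔ Subgroup.zpowers c) (Subgroup.mem_zpowers c)
  have hco : Odd (orderOf c) := ALred_ord p G₁ G₀ h2 h3 c hcG hc.cop hodd
  refine ⟨c, ?_⟩
  suffices h : ∃ x ∈ G₁, orderOf x = p ∧ c * x * c⁻¹ ∈ Subgroup.zpowers x by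
    obtain ⟨x, hx, hxo, hxc⟩ := h
    obtain ⟨a, ha⟩ := (mem_powers_iff_mem_zpowers.2 hxc)
    exact ⟨x, ⟨hc.pgr, hc.cop, hc.nrm⟩, hG₀, hco, hx, hxo, a, ha.symm⟩
  obtain ⟨k, hk⟩ := IsPGroup.iff_card.1 h3
  have hcoe : Nat.card (G₁.map (alternatingGroup (Fin n)).subtype) = Nat.card G₁ :=
    (Nat.card_congr (G₁.equivMapOfInjective _ (Subgroup.subtype_injective _)).toEquiv).symm
  have hk3 : k < 3 := by
    by_contra hcon
    push Not at hcon
    have h7 := ALred_fac p n hp2 hn
    have hG : Nat.card (Perm (Fin n)) = n.factorial := by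
      rw [Nat.card_eq_fintype_card, Fintype.card_perm, Fintype.card_fin]
    have h8 : k ≤ n.factorial.factorization p := by
      rw [← hpp.pow_dvd_iff_le_factorization (Nat.factorial_ne_zero n), ← hk, ← hcoe, ← hG]
      exact Subgroup.card_subgroup_dvd_card _
    omega
  have hk0 : k ≠ 0 := by
    rintro rfl
    rw [pow_zero] at hk
    exact hne (Subgroup.card_eq_one.1 hk)
  have hcases : k = 1 ∨ k = 2 := by omega
  rcases hcases with rfl | rfl
  · -- order `p`
    rw [pow_one] at hk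
    obtain ⟨x, hx, hx1⟩ : ∃ x ∈ G₁, x ≠ 1 := by
      by_contra hcon
      push Not at hcon
      exact hne ((Subgroup.eq_bot_iff_forall _).2 hcon)
    have hox : orderOf x = p := by
      have h7 : orderOf x ∣ Nat.card G₁ := Subgroup.orderOf_dvd_natCard _ hx
      rw [hk] at h7
      rcases (Nat.dvd_prime hpp).1 h7 with h8 | h8
      · exact absurd (orderOf_eq_one_iff.1 h8) hx1
      · exact h8
    have hz : Subgroup.zpowers x = G₁ := by
      apply Subgroup.eq_of_le_of_card_ge
      · rw [Subgroup.zpowers_le]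
        exact hx
      · rw [Nat.card_zpowers, hox, hk]
    refine ⟨x, hx, hox, ?_⟩
    rw [hz]
    exact hc.nrm x hx
  · -- order `p²`
    obtain ⟨y, hy, hyc, hyo⟩ := ALred_ex p n hp2 hn (G₁.map (alternatingGroup (Fin n)).subtype)
      (hcoe.trans hk)
    obtain ⟨x, hx, rfl⟩ := Subgroup.mem_map.1 hy
    have hxo : orderOf x = p := by
      rw [← hyo]
      exact (orderOf_injective _ (Subgroup.subtype_injective _) x).symm
    refine ⟨x, hx, hxo, ?_⟩
    have hconj : ∀ i : ℕ, c ^ i * x * (c ^ i)⁻¹ ∈ G₁ := by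
      intro i
      induction i with
      | zero => simpa using hx
      | succ i ih =>
        have h7 := hc.nrm _ ih
        have h8 : c ^ (i + 1) * x * (c ^ (i + 1))⁻¹ = c * (c ^ i * x * (c ^ i)⁻¹) * c⁻¹ := by
          rw [pow_succ', mul_inv_rev]
          group
        rw [h8]
        exact h7
    have hab := IsPGroup.isMulCommutative_of_card_eq_prime_sq (p := p) (G := G₁) hk
    have hcom : ∀ u ∈ G₁, ∀ v ∈ G₁, u * v = v * u := by
      intro u hu v hv
      have h7 := hab.is_comm.comm (⟨u, hu⟩ : G₁) ⟨v, hv⟩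
      exact congrArg Subtype.val h7
    have hodd' : Odd (orderOf (c : Perm (Fin n))) := by
      rw [Subgroup.orderOf_coe]
      exact hco
    have h9 := ALred_odd p n hn (x : Perm (Fin n)) (c : Perm (Fin n)) hyc hyo hodd' (by
      intro i j
      have h10 := hcom _ (hconj i) _ (hconj j)
      have h11 := congrArg (Subtype.val : alternatingGroup (Fin n) → Perm (Fin n)) h10
      exact h11)
    obtain ⟨a, ha⟩ := Subgroup.mem_zpowers_iff.1 h9
    refine Subgroup.mem_zpowers_iff.2 ⟨a, ?_⟩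
    apply Subtype.ext
    rw [Subgroup.coe_zpow, ha]
    rfl

end MP7b0bad.AL
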